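import Pool.Agent.Helper74.XP.Comb

/-!
# Extended Petersen graphs, part 7: choosing the unit
-/

set_option autoImplicit false

namespace Pool.Agent.Helper74.XP

open Function

/-- the classes `t` such that the class of `u * t` is in `S` -/
def SU {p : ℕ} (k : ℕ) (S : Finset ℕ) (u : ZMod p) : Finset ℕ :=
  (Finset.Icc 1 (2 * k)).filter fun t => cls (u * (t : ZMod p)) ∈ S

section

variable {p k : ℕ} [Fact p.Prime]

theorem cls_mem (hp : p = 4 * k + 1) {d : ZMod p} (hd : d ≠ 0) : cls d ∈ Finset.Icc 1 (2 * k) := by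
  rw [Finset.mem_Icc]
  have h1 := cls_le d
  have h2 : cls d ≠ 0 := fun h => hd (cls_eq_zero.mp h)
  omega

theorem cls_rep (hp : p = 4 * k + 1) (d : ZMod p) : ((cls d : ℕ) : ZMod p) = d ∨ ((cls d : ℕ) : ZMod p) = -d :=
  cls_eq (cls_cast (cls_le d))

theorem cls_mul (hp : p = 4 * k + 1) (u d : ZMod p) : cls (u * ((cls d : ℕ) : ZMod p)) = cls (u * d) := by
  rcases cls_rep hp d with h | h
  · rw [h]
  · rw [h, mul_neg, cls_neg]

theorem mem_SU (hp : p = 4 * k + 1) {S : Finset ℕ} {u d : ZMod p} (hd : d ≠ 0) :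
    cls d ∈ SU k S u ↔ cls (u * d) ∈ S := by
  unfold SU
  rw [Finset.mem_filter, cls_mul hp]
  exact ⟨fun h => h.2, fun h => ⟨cls_mem hp hd, h⟩⟩

theorem SU_sub {S : Finset ℕ} {u : ZMod p} : SU k S u ⊆ Finset.Icc 1 (2 * k) :=
  Finset.filter_subset _ _

theorem cast_ne (hp : p = 4 * k + 1) {t : ℕ} (ht : t ∈ Finset.Icc 1 (2 * k)) : ((t : ℕ) : ZMod p) ≠ 0 := by
  rw [Finset.mem_Icc] at ht
  intro h
  have := cls_cast (n := p) (t := t) (by omega)
  rw [h, cls_eq_zero.mpr rfl] at this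
  omega

theorem card_SU (hp : p = 4 * k + 1) {S : Finset ℕ} (hS : S ⊆ Finset.Icc 1 (2 * k)) {u : ZMod p}
    (hu : u ≠ 0) : (SU k S u).card = S.card := by
  refine Finset.card_bij (fun t _ => cls (u * (t : ZMod p))) ?_ ?_ ?_
  · intro t ht
    exact (Finset.mem_filter.mp ht).2
  · intro t ht t' ht' h
    have h1 := Finset.mem_Icc.mp (SU_sub ht)
    have h2 := Finset.mem_Icc.mp (SU_sub ht')
    have e1 : cls (t : ZMod p) = t := cls_cast (by omega)
    have e2 : cls (t' : ZMod p) = t' := cls_cast (by omega)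
    rcases cls_eq h with h | h
    · rw [← e1, ← e2, mul_left_cancel₀ hu h]
    · rw [← mul_neg] at h
      rw [← e1, ← e2, mul_left_cancel₀ hu h, cls_neg]
  · intro s hs
    have h1 := Finset.mem_Icc.mp (hS hs)
    have e1 : cls (s : ZMod p) = s := cls_cast (by omega)
    have hne : u⁻¹ * (s : ZMod p) ≠ 0 := mul_ne_zero (inv_ne_zero hu) (cast_ne hp (hS hs))
    have e2 : cls (u * ((cls (u⁻¹ * (s : ZMod p)) : ℕ) : ZMod p)) = s := by
      rw [cls_mul hp, mul_inv_cancel_left₀ hu, e1]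
    refine ⟨cls (u⁻¹ * (s : ZMod p)), ?_, e2⟩
    unfold SU
    rw [Finset.mem_filter, e2]
    exact ⟨cls_mem hp hne, hs⟩

theorem good_of_SU (hp : p = 4 * k + 1) {S : Finset ℕ} {u : ZMod p} (hu : u ≠ 0)
    (h : Good (fun d : ZMod p => cls d ∈ SU k S u) (2 * k)) :
    Good (fun d : ZMod p => cls d ∈ S) (2 * k) :=
  Good.scale hu (P := fun d : ZMod p => cls d ∈ S) (h.congr fun _ hd => (mem_SU hp hd).symm)

theorem sum_univ_eq {f : ZMod p → ℤ} : ∑ x, f x = ∑ i ∈ Finset.range p, f (i : ZMod p) := by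
  symm
  refine Finset.sum_nbij' (fun i => (i : ZMod p)) (fun x => x.val) ?_ ?_ ?_ ?_ ?_
  · intro i _; exact Finset.mem_univ _
  · intro x _; exact Finset.mem_range.mpr (ZMod.val_lt x)
  · intro i hi; exact ZMod.val_cast_of_lt (Finset.mem_range.mp hi)
  · intro x _; exact ZMod.natCast_zmod_val x
  · intro i _; rfl

theorem sum_refl (F : ℕ → ℤ) (m : ℕ) (h : ∀ i < m, F (2 * m - i) = F i) :
    ∑ i ∈ Finset.range (2 * m + 1), F i = F m + 2 * ∑ i ∈ Finset.range m, F i := by
  have h1 : ∑ i ∈ Finset.range m, F (m + 1 + i) = ∑ i ∈ Finset.range m, F i := by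
    rw [← Finset.sum_range_reflect]
    refine Finset.sum_congr rfl fun i hi => ?_
    rw [Finset.mem_range] at hi
    rw [← h i hi]
    congr 1; omega
  rw [show 2 * m + 1 = (m + 1) + m by ring, Finset.sum_range_add, h1, Finset.sum_range_succ]
  ring

open Classical in
/-- the sign of a residue -/
noncomputable def hs (S : Finset ℕ) (x : ZMod p) : ℤ := if x = 0 then 0 else if cls x ∈ S then 1 else -1

theorem hs_neg (S : Finset ℕ) (x : ZMod p) : hs S (-x) = hs S x := by
  simp only [hs, cls_neg, neg_eq_zero]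

theorem hs_zero (S : Finset ℕ) : hs S (0 : ZMod p) = 0 := by simp [hs]

theorem hs_sq (S : Finset ℕ) {x : ZMod p} (hx : x ≠ 0) : hs S x * hs S x = 1 := by
  unfold hs
  rw [if_neg hx]
  split_ifs <;> norm_num

theorem sum_hs (hp : p = 4 * k + 1) {S : Finset ℕ} (hS : S ⊆ Finset.Icc 1 (2 * k)) (hSk : S.card = k) :
    ∑ x : ZMod p, hs S x = 0 := by
  classical
  rw [sum_univ_eq]
  have h1 : ∑ i ∈ Finset.range p, hs S (i : ZMod p) =
      ∑ i ∈ Finset.Icc 1 (2 * k), hs S (i : ZMod p) + ∑ i ∈ Finset.Icc 1 (2 * k), hs S (i : ZMod p) := by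
    have e1 : ∑ i ∈ Finset.Icc 1 (2 * k), hs S (i : ZMod p) =
        ∑ i ∈ Finset.range (2 * k), hs S ((i + 1 : ℕ) : ZMod p) := by
      rw [Finset.range_eq_Ico, Finset.sum_Ico_add' (fun i => hs S ((i : ℕ) : ZMod p)) 0 (2 * k) 1]
      rfl
    have e2 : ∑ i ∈ Finset.range (2 * k), hs S ((2 * k + i + 1 : ℕ) : ZMod p) =
        ∑ i ∈ Finset.range (2 * k), hs S ((i + 1 : ℕ) : ZMod p) := by
      rw [← Finset.sum_range_reflect]
      refine Finset.sum_congr rfl fun i hi => ?_
      rw [Finset.mem_range] at hi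
      rw [← hs_neg]
      congr 1
      have h0 : (p : ZMod p) = 0 := ZMod.natCast_self p
      have h2 : 2 * k + (2 * k - 1 - i) + 1 + (i + 1) = p := by omega
      have h3 : ((2 * k + (2 * k - 1 - i) + 1 : ℕ) : ZMod p) + ((i + 1 : ℕ) : ZMod p) = 0 := by
        rw [← Nat.cast_add, h2, h0]
      linear_combination (-1 : ZMod p) * h3
    have hr : Finset.range p = Finset.range (2 * k + 2 * k + 1) := by
      congr 1; omega
    rw [hr, Finset.sum_range_succ', Finset.sum_range_add, e1]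
    simp only [Nat.cast_zero, hs_zero, add_zero]
    rw [← e2]
  have h2 : ∑ i ∈ Finset.Icc 1 (2 * k), hs S (i : ZMod p) = 0 := by
    have e1 : ∀ i ∈ Finset.Icc 1 (2 * k), hs S (i : ZMod p) = if i ∈ S then 1 else -1 := by
      intro i hi
      unfold hs
      have h3 := Finset.mem_Icc.mp hi
      rw [if_neg (cast_ne hp hi), cls_cast (by omega)]
    rw [Finset.sum_congr rfl e1, Finset.sum_ite, Finset.sum_const, Finset.sum_const]
    have e2 : (Finset.Icc 1 (2 * k)).filter (fun i => i ∈ S) = S := by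
      ext i; simp only [Finset.mem_filter]
      exact ⟨fun h => h.2, fun h => ⟨hS h, h⟩⟩
    have e3 : ((Finset.Icc 1 (2 * k)).filter (fun i => i ∉ S)).card = k := by
      have := Finset.card_filter_add_card_filter_not (s := Finset.Icc 1 (2 * k)) (fun i => i ∈ S)
      rw [e2, hSk, Nat.card_Icc] at this
      omega
    rw [e2, e3, hSk]
    simp
  rw [h1, h2, add_zero]

/-- a unit with many alternations -/
theorem exists_unit (hp : p = 4 * k + 1) (hk : 1 ≤ k) {S : Finset ℕ} (hS : S ⊆ Finset.Icc 1 (2 * k))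
    (hSk : S.card = k) : ∃ u : ZMod p, u ≠ 0 ∧ k ≤ R (SU k S u) k 1 := by
  classical
  have htot : ∑ u : ZMod p, ∑ x : ZMod p, hs S x * hs S (x + u) = 0 := by
    rw [Finset.sum_comm]
    have : ∀ x : ZMod p, ∑ u : ZMod p, hs S x * hs S (x + u) = 0 := by
      intro x
      have h1 := Equiv.sum_comp (Equiv.addLeft x) (fun y => hs S y)
      simp only [Equiv.coe_addLeft] at h1
      rw [← Finset.mul_sum, h1, sum_hs hp hS hSk, mul_zero]
    exact Finset.sum_eq_zero fun x _ => this x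
  obtain ⟨u, hu, hneg⟩ : ∃ u : ZMod p, u ≠ 0 ∧ ∑ x : ZMod p, hs S x * hs S (x + u) < 0 := by
    by_contra hcon
    push Not at hcon
    have h1 : ∑ x : ZMod p, hs S x * hs S (x + 0) ≤ ∑ u : ZMod p, ∑ x : ZMod p, hs S x * hs S (x + u) := by
      refine Finset.single_le_sum (f := fun u => ∑ x : ZMod p, hs S x * hs S (x + u)) (fun u _ => ?_)
        (Finset.mem_univ 0)
      by_cases h : u = 0
      · subst h
        refine Finset.sum_nonneg fun x _ => ?_
        rw [add_zero]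
        exact mul_self_nonneg _
      · exact hcon u h
    have h2 : hs S (1 : ZMod p) * hs S ((1 : ZMod p) + 0) ≤ ∑ x : ZMod p, hs S x * hs S (x + 0) := by
      refine Finset.single_le_sum (f := fun x : ZMod p => hs S x * hs S (x + 0)) (fun x _ => ?_)
        (Finset.mem_univ 1)
      simp only [add_zero]
      exact mul_self_nonneg _
    rw [add_zero, hs_sq S one_ne_zero] at h2
    rw [htot] at h1
    linarith
  refine ⟨u, hu, ?_⟩
  set F : ℕ → ℤ := fun i => hs S (u * (i : ZMod p)) * hs S (u * ((i : ZMod p) + 1)) with hF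
  have e1 : ∑ x : ZMod p, hs S x * hs S (x + u) = ∑ i ∈ Finset.range (2 * (2 * k) + 1), F i := by
    rw [← Equiv.sum_comp (Equiv.mulLeft₀ u hu), sum_univ_eq]
    refine Finset.sum_congr (by rw [hp]; congr 1; ring) fun i _ => ?_
    show hs S (u * (i : ZMod p)) * hs S (u * (i : ZMod p) + u) = _
    simp only [hF, mul_add, mul_one]
  have h0 : (p : ZMod p) = 0 := ZMod.natCast_self p
  have h4 : (4 : ZMod p) * k = -1 := by
    have h5 : ((4 * k + 1 : ℕ) : ZMod p) = 0 := (congrArg Nat.cast hp).symm.trans h0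
    push_cast at h5
    linear_combination h5
  have e2 := sum_refl F (2 * k) (fun i hi => by
    simp only [hF]
    rw [Nat.cast_sub (by omega)]
    push_cast
    rw [show u * (2 * (2 * (k : ZMod p)) - i) = -(u * ((i : ZMod p) + 1)) by linear_combination u * h4,
      show u * (2 * (2 * (k : ZMod p)) - i + 1) = -(u * i) by linear_combination u * h4, hs_neg, hs_neg,
      mul_comm])
  have e3 : F (2 * k) = 1 := by
    simp only [hF]
    push_cast
    rw [show u * (2 * (k : ZMod p) + 1) = -(u * (2 * k)) by linear_combination u * h4, hs_neg]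
    refine hs_sq S (mul_ne_zero hu ?_)
    have := cast_ne hp (t := 2 * k) (by rw [Finset.mem_Icc]; omega)
    exact_mod_cast this
  have e4 : ∑ i ∈ Finset.range (2 * k), F i = ∑ i ∈ Finset.Ico 1 (2 * k), F i := by
    have h5 : F 0 = 0 := by simp [hF, hs_zero]
    rw [Finset.range_eq_Ico, Finset.sum_eq_sum_Ico_succ_bot (by omega), h5, zero_add]
  have e5 : ∀ i ∈ Finset.Ico 1 (2 * k), F i =
      1 - 2 * ((if (i ∈ SU k S u ↔ i + 1 ∈ SU k S u) then 0 else 1 : ℕ) : ℤ) := by
    intro i hi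
    rw [Finset.mem_Ico] at hi
    have i1 : i ∈ Finset.Icc 1 (2 * k) := by rw [Finset.mem_Icc]; omega
    have i2 : i + 1 ∈ Finset.Icc 1 (2 * k) := by rw [Finset.mem_Icc]; omega
    have n1 : u * (i : ZMod p) ≠ 0 := mul_ne_zero hu (cast_ne hp i1)
    have n2 : u * ((i + 1 : ℕ) : ZMod p) ≠ 0 := mul_ne_zero hu (cast_ne hp i2)
    have m1 : i ∈ SU k S u ↔ cls (u * (i : ZMod p)) ∈ S := by
      unfold SU; rw [Finset.mem_filter]; exact ⟨fun h => h.2, fun h => ⟨i1, h⟩⟩
    have m2 : i + 1 ∈ SU k S u ↔ cls (u * ((i + 1 : ℕ) : ZMod p)) ∈ S := by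
      unfold SU; rw [Finset.mem_filter]; exact ⟨fun h => h.2, fun h => ⟨i2, h⟩⟩
    have hFi : F i = hs S (u * (i : ZMod p)) * hs S (u * ((i + 1 : ℕ) : ZMod p)) := by
      simp only [hF]; push_cast; rfl
    rw [hFi]
    unfold hs
    rw [if_neg n1, if_neg n2]
    by_cases c1 : cls (u * (i : ZMod p)) ∈ S <;> by_cases c2 : cls (u * ((i + 1 : ℕ) : ZMod p)) ∈ S <;>
      simp only [m1, m2, c1, c2, if_true, if_false, iff_true, iff_false, not_true_eq_false] <;> norm_num
  rw [e4, Finset.sum_congr rfl e5, Finset.sum_sub_distrib, ← Finset.mul_sum] at e2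
  have e6 : ((R (SU k S u) k 1 : ℕ) : ℤ) =
      ∑ i ∈ Finset.Ico 1 (2 * k), ((if (i ∈ SU k S u ↔ i + 1 ∈ SU k S u) then 0 else 1 : ℕ) : ℤ) := by
    unfold R
    rw [Nat.cast_sum]
  rw [← e6, e3, Finset.sum_const, Nat.card_Ico] at e2
  rw [e1, e2] at hneg
  simp only [nsmul_eq_mul, mul_one] at hneg
  have : ((2 * k - 1 : ℕ) : ℤ) = 2 * k - 1 := by
    rw [Nat.cast_sub (by omega)]; push_cast; ring
  rw [this] at hneg
  omega

end

end Pool.Agent.Helper74.XP
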