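import Pool.Agent.Helper74.XP.Twist

/-!
# Extended Petersen graphs, part 3: covering the edges of all classes
-/

set_option autoImplicit false

namespace Pool.Agent.Helper74.XP

open Function

/-- the class of a difference -/
def cls {n : ℕ} (d : ZMod n) : ℕ := d.valMinAbs.natAbs

theorem cls_neg {n : ℕ} (d : ZMod n) : cls (-d) = cls d := ZMod.natAbs_valMinAbs_neg d

theorem cls_eq {n : ℕ} {a b : ZMod n} (h : cls a = cls b) : a = b ∨ a = -b := by
  unfold cls at h
  rcases Int.natAbs_eq_natAbs_iff.mp h with h | h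
  · left; rw [← ZMod.coe_valMinAbs a, h, ZMod.coe_valMinAbs]
  · right; rw [← ZMod.coe_valMinAbs a, h, Int.cast_neg, ZMod.coe_valMinAbs]

theorem cls_eq_zero {n : ℕ} {a : ZMod n} : cls a = 0 ↔ a = 0 := by
  unfold cls
  rw [Int.natAbs_eq_zero, ZMod.valMinAbs_eq_zero]

section

variable {p : ℕ} {ι : Type} [DecidableEq ι]

/-- the pair `x, y` is one of the chosen edges or an edge of one of the matchings -/
def Covd (s : Finset ι) (P Q : ι → ZMod p) (F : ι → Bool → ZMod p → ZMod p) (x y : ZMod p) : Prop :=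
  (∃ i ∈ s, (P i = x ∧ Q i = y) ∨ (P i = y ∧ Q i = x)) ∨ ∃ i ∈ s, ∃ b, F i b x = y

/-- the edges of the classes in `T` are covered by matchings which avoid the ends of the chosen edges -/
def Cov (T : Finset ℕ) (s : Finset ι) (P Q : ι → ZMod p) : Prop :=
  ∃ F : ι → Bool → ZMod p → ZMod p, (∀ i ∈ s, ∀ b, Involutive (F i b)) ∧
    (∀ i ∈ s, F i false (P i) = P i ∧ F i true (Q i) = Q i) ∧
    ∀ x y, cls (y - x) ∈ T → Covd s P Q F x y

theorem Covd.symm {s : Finset ι} {P Q : ι → ZMod p} {F : ι → Bool → ZMod p → ZMod p}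
    (hF : ∀ i ∈ s, ∀ b, Involutive (F i b)) {x y : ZMod p} (h : Covd s P Q F x y) :
    Covd s P Q F y x := by
  rcases h with ⟨i, hi, h⟩ | ⟨i, hi, b, h⟩
  · exact Or.inl ⟨i, hi, h.symm⟩
  · exact Or.inr ⟨i, hi, b, by rw [← h]; exact hF i hi b x⟩

theorem Cov.union {T1 T2 : Finset ℕ} {s1 s2 : Finset ι} {P Q : ι → ZMod p} (h1 : Cov T1 s1 P Q)
    (h2 : Cov T2 s2 P Q) (hd : Disjoint s1 s2) : Cov (T1 ∪ T2) (s1 ∪ s2) P Q := by
  obtain ⟨F1, a1, b1, c1⟩ := h1
  obtain ⟨F2, a2, b2, c2⟩ := h2
  have hne : ∀ i ∈ s2, i ∉ s1 := fun i hi h => Finset.disjoint_left.mp hd h hi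
  refine ⟨fun i => if i ∈ s1 then F1 i else F2 i, ?_, ?_, ?_⟩
  · intro i hi b
    by_cases h : i ∈ s1
    · simp only [h, if_true]; exact a1 i h b
    · simp only [h, if_false]; exact a2 i ((Finset.mem_union.mp hi).resolve_left h) b
  · intro i hi
    by_cases h : i ∈ s1
    · simp only [h, if_true]; exact b1 i h
    · simp only [h, if_false]; exact b2 i ((Finset.mem_union.mp hi).resolve_left h)
  · intro x y hxy
    rcases Finset.mem_union.mp hxy with h | h
    · rcases c1 x y h with ⟨i, hi, h⟩ | ⟨i, hi, b, h⟩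
      · exact Or.inl ⟨i, Finset.mem_union_left _ hi, h⟩
      · exact Or.inr ⟨i, Finset.mem_union_left _ hi, b, by simpa [hi] using h⟩
    · rcases c2 x y h with ⟨i, hi, h⟩ | ⟨i, hi, b, h⟩
      · exact Or.inl ⟨i, Finset.mem_union_right _ hi, h⟩
      · exact Or.inr ⟨i, Finset.mem_union_right _ hi, b, by simpa [hne i hi] using h⟩

end

section

variable {p : ℕ} [Fact p.Prime] {ι : Type} [DecidableEq ι]

theorem cov_single (hp : p ≠ 2) {t : ℕ} {i : ι} {P Q : ι → ZMod p} (hne : P i ≠ Q i)
    (ht : cls (Q i - P i) = t) : Cov {t} {i} P Q := by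
  have hodd : p % 2 = 1 := (Fact.out : p.Prime).eq_two_or_odd.resolve_left hp
  have h2 : 2 ≤ p := (Fact.out : p.Prime).two_le
  have h3 : 3 ≤ p := by omega
  obtain ⟨C, hC⟩ := cycle (a := Q i - P i) (sub_ne_zero.mpr hne.symm)
  have hPQ : Edge C (P i) (Q i) := by
    have := hC (P i)
    rwa [add_sub_cancel] at this
  obtain ⟨G, hG, hu, hv, hcov⟩ := cut hodd h3 C hPQ
  refine ⟨fun _ => G, fun _ _ => hG, ?_, ?_⟩
  · intro j hj
    rw [Finset.mem_singleton] at hj
    subst hj
    exact ⟨hu, hv⟩
  · intro x y hxy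
    rw [Finset.mem_singleton] at hxy
    have hE : Edge C x y := by
      rcases cls_eq (hxy.trans ht.symm) with h | h
      · have := hC x
        rwa [← h, add_sub_cancel] at this
      · have := hC y
        rw [show Q i - P i = x - y by rw [← neg_sub y x, h, neg_neg], add_sub_cancel] at this
        exact this.symm
    rcases hcov x y hE with ⟨b, h⟩ | ⟨h1, h2⟩ | ⟨h1, h2⟩
    · exact Or.inr ⟨i, by simp, b, h⟩
    · exact Or.inl ⟨i, by simp, Or.inl ⟨h1.symm, h2.symm⟩⟩
    · exact Or.inl ⟨i, by simp, Or.inr ⟨h2.symm, h1.symm⟩⟩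

theorem cov_pair (hp : p ≠ 2) {t s : ℕ} {i j : ι} (hij : i ≠ j) {P Q : ι → ZMod p}
    (hi : P i ≠ Q i) (hti : cls (Q i - P i) = t) (htj : cls (Q j - P j) = t)
    (hPP : P i ≠ P j) (hPQ : P i ≠ Q j) {d : ZMod p} (hd : d ≠ 0) (hs : cls d = s) :
    Cov {t, s} {i, j} P Q := by
  have hodd : p % 2 = 1 := (Fact.out : p.Prime).eq_two_or_odd.resolve_left hp
  have h2 : 2 ≤ p := (Fact.out : p.Prime).two_le
  have h3 : 3 ≤ p := by omega
  set c := Q i - P i with hc
  have hc0 : c ≠ 0 := sub_ne_zero.mpr hi.symm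
  obtain ⟨x2, hx2, hE2⟩ : ∃ x2, x2 ≠ P i ∧ ∀ C : ZMod p → ZMod p, Edge C x2 (x2 + c) →
      Edge C (P j) (Q j) := by
    rcases cls_eq (htj.trans hti.symm) with h | h
    · refine ⟨P j, hPP.symm, fun C hC => ?_⟩
      rwa [← h, add_sub_cancel] at hC
    · refine ⟨Q j, hPQ.symm, fun C hC => ?_⟩
      rw [show c = P j - Q j by rw [← neg_sub (Q j), h, neg_neg], add_sub_cancel] at hC
      exact hC.symm
  obtain ⟨a, ha0, hda, hxa⟩ : ∃ a : ZMod p, a ≠ 0 ∧ (a = d ∨ a = -d) ∧ x2 ≠ P i + a := by
    by_cases h : x2 = P i + d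
    · refine ⟨-d, neg_ne_zero.mpr hd, Or.inr rfl, ?_⟩
      rw [h]
      intro h'
      have h4 : d + d = 0 := by linear_combination h'
      have h5 : (2 : ZMod p) * d = 0 := by rw [two_mul]; exact h4
      rcases mul_eq_zero.mp h5 with h6 | h6
      · have : ((2 : ℕ) : ZMod p) = 0 := by exact_mod_cast h6
        rw [ZMod.natCast_eq_zero_iff] at this
        have := Nat.le_of_dvd (by norm_num) this
        omega
      · exact hd h6
    · exact ⟨d, hd, Or.inl rfl, h⟩
  have hsa : cls a = s := by
    rcases hda with rfl | rfl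
    · exact hs
    · rw [cls_neg]; exact hs
  obtain ⟨C1, h11, h12, h13⟩ := twist ha0 hc0 (P i)
  obtain ⟨C2, h21, h22, h23⟩ := twist hc0 ha0 (P i)
  have hPi : P i + c = Q i := by rw [hc, add_sub_cancel]
  obtain ⟨G1, hG1, hu1, hv1, hcov1⟩ := cut hodd h3 C1 (u := P i) (v := Q i) (by rwa [hPi] at h11)
  obtain ⟨G2, hG2, hu2, hv2, hcov2⟩ := cut hodd h3 C2 (u := P j) (v := Q j)
    (hE2 _ (h23 x2 hx2 hxa))
  set F : ι → Bool → ZMod p → ZMod p := fun k => if k = i then G1 else G2 with hF
  have hFi : F i = G1 := by simp [hF]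
  have hFj : F j = G2 := by simp [hF, hij.symm]
  have hinv : ∀ k ∈ ({i, j} : Finset ι), ∀ b, Involutive (F k b) := by
    intro k hk b
    rw [Finset.mem_insert, Finset.mem_singleton] at hk
    rcases hk with rfl | rfl
    · rw [hFi]; exact hG1 b
    · rw [hFj]; exact hG2 b
  have e1 : ∀ x y, Edge C1 x y → Covd {i, j} P Q F x y := by
    intro x y h
    rcases hcov1 x y h with ⟨b, h⟩ | ⟨h1, h2⟩ | ⟨h1, h2⟩
    · exact Or.inr ⟨i, by simp, b, by rw [hFi]; exact h⟩
    · exact Or.inl ⟨i, by simp, Or.inl ⟨h1.symm, h2.symm⟩⟩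
    · exact Or.inl ⟨i, by simp, Or.inr ⟨h2.symm, h1.symm⟩⟩
  have e2 : ∀ x y, Edge C2 x y → Covd {i, j} P Q F x y := by
    intro x y h
    rcases hcov2 x y h with ⟨b, h⟩ | ⟨h1, h2⟩ | ⟨h1, h2⟩
    · exact Or.inr ⟨j, by simp, b, by rw [hFj]; exact h⟩
    · exact Or.inl ⟨j, by simp, Or.inl ⟨h1.symm, h2.symm⟩⟩
    · exact Or.inl ⟨j, by simp, Or.inr ⟨h2.symm, h1.symm⟩⟩
  have kc : ∀ x, Covd {i, j} P Q F x (x + c) := by
    intro x
    by_cases h1 : x = P i
    · subst h1; exact e1 _ _ h11
    · by_cases h2 : x = P i + a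
      · subst h2; exact e1 _ _ h12
      · exact e2 _ _ (h23 x h1 h2)
  have ka : ∀ x, Covd {i, j} P Q F x (x + a) := by
    intro x
    by_cases h1 : x = P i
    · subst h1; exact e2 _ _ h21
    · by_cases h2 : x = P i + c
      · subst h2; exact e2 _ _ h22
      · exact e1 _ _ (h13 x h1 h2)
  refine ⟨F, hinv, ?_, ?_⟩
  · intro k hk
    rw [Finset.mem_insert, Finset.mem_singleton] at hk
    rcases hk with rfl | rfl
    · rw [hFi]; exact ⟨hu1, hv1⟩
    · rw [hFj]; exact ⟨hu2, hv2⟩
  · intro x y hxy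
    rw [Finset.mem_insert, Finset.mem_singleton] at hxy
    rcases hxy with h | h
    · rcases cls_eq (h.trans hti.symm) with h | h
      · have := kc x
        rwa [← h, add_sub_cancel] at this
      · have := kc y
        rw [show c = x - y by rw [← neg_sub y x, h, neg_neg], add_sub_cancel] at this
        exact this.symm hinv
    · rcases cls_eq (h.trans hsa.symm) with h | h
      · have := ka x
        rwa [← h, add_sub_cancel] at this
      · have := ka y
        rw [show a = x - y by rw [← neg_sub y x, h, neg_neg], add_sub_cancel] at this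
        exact this.symm hinv

/-- Covering all classes, if every class contains at most two of the chosen edges. -/
theorem cov_all (hp : p ≠ 2) (T : Finset ℕ) : ∀ (s : Finset ι) (P Q : ι → ZMod p),
    (∀ t ∈ T, ∃ d : ZMod p, d ≠ 0 ∧ cls d = t) → (∀ i ∈ s, cls (Q i - P i) ∈ T) →
    s.card = T.card → (∀ t ∈ T, (s.filter fun i => cls (Q i - P i) = t).card ≤ 2) →
    (∀ i ∈ s, ∀ j ∈ s, i ≠ j → P i ≠ P j ∧ P i ≠ Q j) → Cov T s P Q := by
  induction T using Finset.strongInduction with
  | H T ih =>
    intro s P Q hT hs hcard h2 hd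
    have hne : ∀ i ∈ s, P i ≠ Q i := by
      intro i hi h
      obtain ⟨d, hd0, hd⟩ := hT _ (hs i hi)
      rw [h, sub_self, cls_eq_zero.mpr rfl, cls_eq_zero] at hd
      exact hd0 hd
    rcases T.eq_empty_or_nonempty with rfl | hTne
    · have hs0 : s = ∅ := by rw [← Finset.card_eq_zero, hcard]; rfl
      subst hs0
      exact ⟨fun _ _ x => x, by simp, by simp, by simp⟩
    have hsum := Finset.card_eq_sum_card_fiberwise (s := s) (t := T)
      (f := fun i => cls (Q i - P i)) hs
    by_cases h1 : ∃ t ∈ T, (s.filter fun i => cls (Q i - P i) = t).card = 1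
    · obtain ⟨t, ht, h1⟩ := h1
      obtain ⟨i, hi⟩ := Finset.card_eq_one.mp h1
      have him : i ∈ s ∧ cls (Q i - P i) = t := by
        have : i ∈ s.filter fun i => cls (Q i - P i) = t := by rw [hi]; simp
        simpa using this
      have hne' : ∀ j ∈ s.erase i, cls (Q j - P j) ≠ t := by
        intro j hj h
        rw [Finset.mem_erase] at hj
        have : j ∈ s.filter fun i => cls (Q i - P i) = t := by simp [hj.2, h]
        rw [hi, Finset.mem_singleton] at this
        exact hj.1 this
      have key := ih (T.erase t) (Finset.erase_ssubset ht) (s.erase i) P Q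
        (fun u hu => hT u (Finset.mem_of_mem_erase hu))
        (fun j hj => Finset.mem_erase.mpr ⟨hne' j hj, hs j (Finset.mem_of_mem_erase hj)⟩)
        (by rw [Finset.card_erase_of_mem ht, Finset.card_erase_of_mem him.1, hcard])
        (fun u hu => le_trans (Finset.card_le_card (Finset.filter_subset_filter _
          (Finset.erase_subset _ _))) (h2 u (Finset.mem_of_mem_erase hu)))
        (fun j hj k hk => hd j (Finset.mem_of_mem_erase hj) k (Finset.mem_of_mem_erase hk))
      have := (cov_single hp (hne i him.1) him.2).union key (by simp)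
      rwa [← Finset.insert_eq, ← Finset.insert_eq, Finset.insert_erase ht,
        Finset.insert_erase him.1] at this
    · push Not at h1
      have h02 : ∀ t ∈ T, (s.filter fun i => cls (Q i - P i) = t).card = 0 ∨
          (s.filter fun i => cls (Q i - P i) = t).card = 2 := by
        intro t ht
        have := h1 t ht
        have := h2 t ht
        omega
      have hTc : 0 < T.card := Finset.card_pos.mpr hTne
      obtain ⟨t, ht, h2t⟩ : ∃ t ∈ T, (s.filter fun i => cls (Q i - P i) = t).card = 2 := by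
        by_contra h
        push Not at h
        have : s.card = 0 := by
          rw [hsum]
          exact Finset.sum_eq_zero fun t ht => (h02 t ht).resolve_right (h t ht)
        omega
      obtain ⟨u, hu, h0u⟩ : ∃ t ∈ T, (s.filter fun i => cls (Q i - P i) = t).card = 0 := by
        by_contra h
        push Not at h
        have : s.card = T.card * 2 := by
          rw [hsum]
          exact Finset.sum_const_nat fun t ht => (h02 t ht).resolve_left (h t ht)
        omega
      obtain ⟨i, j, hij, hij2⟩ := Finset.card_eq_two.mp h2t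
      have htu : t ≠ u := by rintro rfl; omega
      have him : i ∈ s ∧ cls (Q i - P i) = t := by
        have : i ∈ s.filter fun i => cls (Q i - P i) = t := by rw [hij2]; simp
        simpa using this
      have hjm : j ∈ s ∧ cls (Q j - P j) = t := by
        have : j ∈ s.filter fun i => cls (Q i - P i) = t := by rw [hij2]; simp
        simpa using this
      have hnu : ∀ k ∈ s, cls (Q k - P k) ≠ u := by
        intro k hk h
        rw [Finset.card_eq_zero] at h0u
        have : k ∈ s.filter fun i => cls (Q i - P i) = u := by simp [hk, h]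
        rw [h0u] at this
        simp at this
      have hnt : ∀ k ∈ s \ {i, j}, cls (Q k - P k) ≠ t := by
        intro k hk h
        rw [Finset.mem_sdiff] at hk
        have : k ∈ s.filter fun i => cls (Q i - P i) = t := by simp [hk.1, h]
        rw [hij2] at this
        exact hk.2 this
      obtain ⟨d, hd0, hdu⟩ := hT u hu
      have hsubs : ({i, j} : Finset ι) ⊆ s := by
        intro k hk
        rw [Finset.mem_insert, Finset.mem_singleton] at hk
        rcases hk with rfl | rfl
        · exact him.1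
        · exact hjm.1
      have hsubT : ({t, u} : Finset ℕ) ⊆ T := by
        intro k hk
        rw [Finset.mem_insert, Finset.mem_singleton] at hk
        rcases hk with rfl | rfl
        · exact ht
        · exact hu
      have key := ih (T \ {t, u}) (Finset.sdiff_ssubset hsubT ⟨t, by simp⟩) (s \ {i, j}) P Q
        (fun u hu => hT u (Finset.mem_sdiff.mp hu).1)
        (fun k hk => Finset.mem_sdiff.mpr ⟨hs k (Finset.mem_sdiff.mp hk).1, by
          simp [hnt k hk, hnu k (Finset.mem_sdiff.mp hk).1]⟩)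
        (by rw [Finset.card_sdiff_of_subset hsubT, Finset.card_sdiff_of_subset hsubs, hcard,
              Finset.card_pair htu, Finset.card_pair hij])
        (fun u hu => le_trans (Finset.card_le_card (Finset.filter_subset_filter _
          Finset.sdiff_subset)) (h2 u (Finset.mem_sdiff.mp hu).1))
        (fun j hj k hk => hd j (Finset.mem_sdiff.mp hj).1 k (Finset.mem_sdiff.mp hk).1)
      obtain ⟨hPP, hPQ⟩ := hd i him.1 j hjm.1 hij
      have := (cov_pair hp hij (hne i him.1) him.2 hjm.2 hPP hPQ hd0 hdu).union key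
        Finset.disjoint_sdiff
      rwa [Finset.union_sdiff_of_subset hsubT, Finset.union_sdiff_of_subset hsubs] at this

end

end Pool.Agent.Helper74.XP
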