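import Pool.Agent.Helper74.XP.Zig

/-!
# Extended Petersen graphs, part 6: choosing the alternating sequences
-/

set_option autoImplicit false

namespace Pool.Agent.Helper74.XP

open Function

theorem good_compl {p k : ℕ} [NeZero p] (hp : p = 4 * k + 1) {S : Finset ℕ}
    (h : Good (fun d : ZMod p => cls d ∈ Finset.Icc 1 (2 * k) \ S) (2 * k)) :
    Good (fun d : ZMod p => cls d ∈ S) (2 * k) := by
  refine h.not.congr fun d hd => ?_
  have h1 := cls_le d
  have h2 : cls d ≠ 0 := fun h => hd (cls_eq_zero.mp h)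
  have h3 : cls d ∈ Finset.Icc 1 (2 * k) := by rw [Finset.mem_Icc]; omega
  rw [Finset.mem_sdiff]
  tauto

theorem good_of_zigzag' {p k : ℕ} [Fact p.Prime] (hp : p = 4 * k + 1) {S : Finset ℕ}
    (hS : S ⊆ Finset.Icc 1 (2 * k)) (hSk : S.card = k) {a b : ℕ → ℕ} {m1 m2 : ℕ}
    (hm1 : m1 % 2 = 1) (hm2 : m2 % 2 = 1) (hm : m1 + m2 + 2 = 2 * k)
    (ha : ∀ i < m1, a (i + 1) < a i) (hb : ∀ i < m2, b (i + 1) < b i)
    (ha1 : ∀ i ≤ m1, 1 ≤ a i ∧ a i ≤ 2 * k) (hb1 : ∀ i ≤ m2, 1 ≤ b i ∧ b i ≤ 2 * k) {e : Prop}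
    (haS : ∀ i ≤ m1, a i ∈ S ↔ (i % 2 = 0 ↔ e)) (hbS : ∀ i ≤ m2, b i ∈ S ↔ (i % 2 = 0 ↔ e))
    (hZ : Z a (m1 + 1) = Z b (m2 + 1)) :
    Good (fun d : ZMod p => cls d ∈ S) (2 * k) := by
  by_cases he : e
  · exact good_of_zigzag hp hS hSk hm1 hm2 hm ha hb ha1 hb1
      (fun i hi => by rw [haS i hi]; tauto) (fun i hi => by rw [hbS i hi]; tauto) hZ
  · refine good_compl hp (good_of_zigzag hp Finset.sdiff_subset ?_ hm1 hm2 hm ha hb ha1 hb1
      (fun i hi => ?_) (fun i hi => ?_) hZ)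
    · rw [Finset.card_sdiff_of_subset hS, hSk, Nat.card_Icc]; omega
    · rw [Finset.mem_sdiff, Finset.mem_Icc, haS i hi]
      have := ha1 i hi
      tauto
    · rw [Finset.mem_sdiff, Finset.mem_Icc, hbS i hi]
      have := hb1 i hi
      tauto

open Classical in
/-- the number of alternations in `[j, 2 * k)` -/
noncomputable def R (S : Finset ℕ) (k j : ℕ) : ℕ :=
  ∑ i ∈ Finset.Ico j (2 * k), if (i ∈ S ↔ i + 1 ∈ S) then 0 else 1

open Classical in
theorem R_succ (S : Finset ℕ) {k j : ℕ} (hj : j < 2 * k) :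
    R S k j = (if (j ∈ S ↔ j + 1 ∈ S) then 0 else 1) + R S k (j + 1) := by
  unfold R
  rw [Finset.sum_eq_sum_Ico_succ_bot hj]

theorem R_top (S : Finset ℕ) (k : ℕ) : R S k (2 * k) = 0 := by simp [R]

theorem R_anti (S : Finset ℕ) (k : ℕ) {i j : ℕ} (hij : i ≤ j) : R S k j ≤ R S k i := by
  unfold R
  exact Finset.sum_le_sum_of_subset (Finset.Ico_subset_Ico_left hij)

theorem R_type (S : Finset ℕ) (k : ℕ) : ∀ l, l ≤ 2 * k →
    (2 * k - l ∈ S ↔ (R S k (2 * k - l) % 2 = 0 ↔ 2 * k ∈ S)) := by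
  intro l
  induction l with
  | zero => intro _; rw [Nat.sub_zero, R_top]; tauto
  | succ l ih =>
    intro hl
    have h1 := ih (by omega)
    have h2 := R_succ S (k := k) (j := 2 * k - (l + 1)) (by omega)
    rw [show 2 * k - (l + 1) + 1 = 2 * k - l by omega] at h2
    rw [h2]
    split_ifs with h
    · rw [zero_add, ← h1]; exact h
    · have e : ((1 + R S k (2 * k - l)) % 2 = 0 ↔ ¬ (R S k (2 * k - l) % 2 = 0)) := by omega
      rw [e]
      tauto

theorem R_type' (S : Finset ℕ) {k j : ℕ} (hj : j ≤ 2 * k) :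
    (j ∈ S ↔ (R S k j % 2 = 0 ↔ 2 * k ∈ S)) := by
  have := R_type S k (2 * k - j) (by omega)
  rwa [show 2 * k - (2 * k - j) = j by omega] at this

theorem R_drop (S : Finset ℕ) (k : ℕ) : ∀ l, l ≤ 2 * k → ∀ i < R S k (2 * k - l),
    ∃ q, 2 * k - l ≤ q ∧ q < 2 * k ∧ R S k q = i + 1 ∧ R S k (q + 1) = i := by
  intro l
  induction l with
  | zero => intro _ i hi; rw [Nat.sub_zero, R_top] at hi; omega
  | succ l ih =>
    intro hl i hi
    have h2 := R_succ S (k := k) (j := 2 * k - (l + 1)) (by omega)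
    rw [show 2 * k - (l + 1) + 1 = 2 * k - l by omega] at h2
    rcases Nat.lt_or_ge i (R S k (2 * k - l)) with h | h
    · obtain ⟨q, h3, h4, h5⟩ := ih (by omega) i h
      exact ⟨q, by omega, h4, h5⟩
    · refine ⟨2 * k - (l + 1), le_refl _, by omega, ?_, ?_⟩
      · split_ifs at h2 <;> omega
      · rw [show 2 * k - (l + 1) + 1 = 2 * k - l by omega]
        split_ifs at h2 <;> omega

theorem R_lt (S : Finset ℕ) (k : ℕ) {i j : ℕ} (h : R S k j < R S k i) : i < j := by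
  by_contra h'
  have := R_anti S k (i := j) (j := i) (by omega)
  omega

/-- positions in the successive runs -/
theorem exists_P (S : Finset ℕ) {k : ℕ} (hk : 1 ≤ k) : ∃ P : ℕ → ℕ,
    (∀ i ≤ R S k 1, 1 ≤ P i ∧ P i ≤ 2 * k ∧ R S k (P i) = i) ∧
    ∀ i < R S k 1, P (i + 1) < 2 * k ∧ R S k (P (i + 1) + 1) = i := by
  have h := R_drop S k (2 * k - 1) (by omega)
  rw [show 2 * k - (2 * k - 1) = 1 by omega] at h
  choose! q hq using h
  refine ⟨fun i => if i = 0 then 2 * k else q (i - 1), ?_, ?_⟩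
  · intro i hi
    by_cases h0 : i = 0
    · subst h0
      have h1 := R_top S k
      simp only [if_true]
      exact ⟨by omega, le_refl _, h1⟩
    · simp only [h0, if_false]
      obtain ⟨h1, h2, h3, h4⟩ := hq (i - 1) (by omega)
      exact ⟨h1, by omega, by omega⟩
  · intro i hi
    obtain ⟨h1, h2, h3, h4⟩ := hq i hi
    simp only [Nat.add_eq_zero_iff, one_ne_zero, and_false, if_false, Nat.add_sub_cancel]
    exact ⟨h2, h4⟩

theorem par_aux (i i0 : ℕ) (w : Prop) :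
    (((i0 + i) % 2 = 0 ↔ w) ↔ (i % 2 = 0 ↔ (i0 % 2 = 0 ↔ w))) := by
  rcases Nat.mod_two_eq_zero_or_one i0 with h | h
  · have e : ((i0 + i) % 2 = 0 ↔ i % 2 = 0) := by omega
    rw [e]; tauto
  · have e : ((i0 + i) % 2 = 0 ↔ ¬ (i % 2 = 0)) := by omega
    have e2 : ¬ (i0 % 2 = 0) := by omega
    rw [e]; tauto

/-- `k` even -/
theorem good_even {p k : ℕ} [Fact p.Prime] (hp : p = 4 * k + 1) (hk : 2 ≤ k) (hk2 : k % 2 = 0)
    {S : Finset ℕ} (hS : S ⊆ Finset.Icc 1 (2 * k)) (hSk : S.card = k) (hM : k ≤ R S k 1) :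
    Good (fun d : ZMod p => cls d ∈ S) (2 * k) := by
  obtain ⟨P, hP, -⟩ := exists_P S (k := k) (by omega)
  have hdec : ∀ i < k - 1, P (i + 1) < P i := by
    intro i hi
    apply R_lt S k
    rw [(hP i (by omega)).2.2, (hP (i + 1) (by omega)).2.2]
    omega
  have hty : ∀ i ≤ k - 1, P i ∈ S ↔ (i % 2 = 0 ↔ 2 * k ∈ S) := by
    intro i hi
    obtain ⟨h1, h2, h3⟩ := hP i (by omega)
    rw [R_type' S h2, h3]
  exact good_of_zigzag' hp hS hSk (m1 := k - 1) (m2 := k - 1) (by omega) (by omega) (by omega)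
    hdec hdec (fun i hi => ⟨(hP i (by omega)).1, (hP i (by omega)).2.1⟩)
    (fun i hi => ⟨(hP i (by omega)).1, (hP i (by omega)).2.1⟩) hty hty rfl

/-- positions in the successive runs with a special triple -/
theorem exists_triple (S : Finset ℕ) {k : ℕ} (hk : 1 ≤ k) (h3 : 3 ≤ R S k 1) {j : ℕ} (hj : 1 ≤ j)
    (hjk : j < 2 * k) (hjS : j ∈ S ↔ j + 1 ∈ S) :
    ∃ (P : ℕ → ℕ) (t z : ℕ), (∀ i ≤ R S k 1, 1 ≤ P i ∧ P i ≤ 2 * k ∧ R S k (P i) = i) ∧
      t + 2 ≤ R S k 1 ∧ z + P (t + 1) = P t + P (t + 2) ∧ R S k z % 2 = t % 2 ∧ 1 ≤ z ∧ z ≤ 2 * k := by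
  classical
  obtain ⟨P, hP, hP'⟩ := exists_P S hk
  have hR : R S k j = R S k (j + 1) := by
    rw [R_succ S hjk, if_pos hjS, zero_add]
  have hRj : R S k j ≤ R S k 1 := R_anti S k hj
  have build : ∀ t A0 A1 A2 z, t + 2 ≤ R S k 1 → (1 ≤ A0 ∧ A0 ≤ 2 * k ∧ R S k A0 = t) →
      (1 ≤ A1 ∧ A1 ≤ 2 * k ∧ R S k A1 = t + 1) → (1 ≤ A2 ∧ A2 ≤ 2 * k ∧ R S k A2 = t + 2) →
      z + A1 = A0 + A2 → R S k z % 2 = t % 2 → 1 ≤ z → z ≤ 2 * k →
      ∃ (P : ℕ → ℕ) (t z : ℕ), (∀ i ≤ R S k 1, 1 ≤ P i ∧ P i ≤ 2 * k ∧ R S k (P i) = i) ∧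
      t + 2 ≤ R S k 1 ∧ z + P (t + 1) = P t + P (t + 2) ∧ R S k z % 2 = t % 2 ∧ 1 ≤ z ∧ z ≤ 2 * k := by
    intro t A0 A1 A2 z h1 h2 h3 h4 h5 h6 h7 h8
    refine ⟨fun i => if i = t then A0 else if i = t + 1 then A1 else if i = t + 2 then A2 else P i,
      t, z, ?_, h1, ?_, h6, h7, h8⟩
    · intro i hi
      simp only
      split_ifs with e1 e2 e3
      · subst e1; exact h2
      · subst e2; exact h3
      · subst e3; exact h4
      · exact hP i hi
    · have e1 : ¬ (t + 1 = t) := by omega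
      have e2 : ¬ (t + 2 = t) := by omega
      have e3 : ¬ (t + 2 = t + 1) := by omega
      simp only [e1, e2, e3, if_true, if_false]
      exact h5
  rcases Nat.lt_or_ge (R S k j) 2 with h | h
  · -- `t = i`
    obtain ⟨b1, b2, b3⟩ := hP (R S k j + 2) (by omega)
    obtain ⟨c1, c2⟩ : P (R S k j + 2) < 2 * k ∧ R S k (P (R S k j + 2) + 1) = R S k j + 1 :=
      hP' (R S k j + 1) (by omega)
    exact build (R S k j) (j + 1) (P (R S k j + 2) + 1) (P (R S k j + 2)) j (by omega)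
      ⟨by omega, by omega, hR.symm⟩ ⟨by omega, by omega, c2⟩ ⟨b1, b2, b3⟩ (by omega) rfl hj (by omega)
  · obtain ⟨i, hi⟩ : ∃ i, R S k j = i + 2 := ⟨R S k j - 2, by omega⟩
    obtain ⟨b1, b2, b3⟩ := hP (i + 1) (by omega)
    obtain ⟨c1, c2⟩ := hP' i (by omega)
    exact build i (P (i + 1) + 1) (P (i + 1)) j (j + 1) (by omega) ⟨by omega, by omega, c2⟩
      ⟨b1, b2, b3⟩ ⟨hj, by omega, hi⟩ (by omega) (by rw [← hR, hi]; omega) (by omega) (by omega)

/-- `k` odd -/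
theorem good_odd {p k : ℕ} [Fact p.Prime] (hp : p = 4 * k + 1) (hk : 3 ≤ k) (hk2 : k % 2 = 1)
    {S : Finset ℕ} (hS : S ⊆ Finset.Icc 1 (2 * k)) (hSk : S.card = k) (hM : k ≤ R S k 1)
    {j : ℕ} (hj : 1 ≤ j) (hjk : j < 2 * k) (hjS : j ∈ S ↔ j + 1 ∈ S) :
    Good (fun d : ZMod p => cls d ∈ S) (2 * k) := by
  obtain ⟨P, t, z, hP, htM, hz, hzR, hz1, hz2⟩ := exists_triple S (k := k) (by omega) (by omega)
    hj hjk hjS
  obtain ⟨i0, t', rfl, hi0, ht'⟩ : ∃ i0 t', t = i0 + t' ∧ i0 + k ≤ R S k 1 ∧ t' + 2 ≤ k := by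
    rcases Nat.lt_or_ge (R S k 1 - k) t with h | h
    · exact ⟨R S k 1 - k, t - (R S k 1 - k), by omega, by omega, by omega⟩
    · exact ⟨t, 0, by omega, by omega, by omega⟩
  have hPdec : ∀ i j, i < j → j ≤ R S k 1 → P j < P i := by
    intro i j hij hj
    apply R_lt S k
    rw [(hP i (by omega)).2.2, (hP j hj).2.2]
    exact hij
  set b : ℕ → ℕ := fun s => if s < t' then P (i0 + s) else if s = t' then z else P (i0 + s + 2)
    with hb
  set a : ℕ → ℕ := fun s => P (i0 + s) with ha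
  have hty : ∀ x ≤ 2 * k, ∀ i, R S k x % 2 = (i0 + i) % 2 →
      (x ∈ S ↔ (i % 2 = 0 ↔ (i0 % 2 = 0 ↔ 2 * k ∈ S))) := by
    intro x hx i hi
    rw [R_type' S hx, hi, par_aux]
  have hb1 : ∀ i, i < t' → b i = P (i0 + i) := fun i hi => by simp only [hb, hi, if_true]
  have hb2 : b t' = z := by simp only [hb, lt_irrefl, if_true, if_false]
  have hb3 : ∀ i, t' < i → b i = P (i0 + i + 2) := fun i hi => by
    have h1 : ¬ (i < t') := by omega
    have h2 : ¬ (i = t') := by omega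
    simp only [hb, h1, h2, if_false]
  have hz3 : P (i0 + t' + 2) < z := by
    have h1 := hPdec (i0 + t') (i0 + t' + 1) (by omega) (by omega)
    omega
  have hz4 : z < P (i0 + t') := by
    have h1 := hPdec (i0 + t' + 1) (i0 + t' + 2) (by omega) (by omega)
    omega
  refine good_of_zigzag' hp hS hSk (a := a) (b := b) (m1 := k) (m2 := k - 2)
    (e := (i0 % 2 = 0 ↔ 2 * k ∈ S)) (by omega) (by omega)
    (by omega) ?_ ?_ ?_ ?_ ?_ ?_ ?_
  · intro i hi
    exact hPdec _ _ (by omega) (by omega)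
  · intro i hi
    rcases lt_trichotomy i t' with h | h | h
    · rw [hb1 i h]
      rcases Nat.lt_or_ge (i + 1) t' with h' | h'
      · rw [hb1 _ h']; exact hPdec _ _ (by omega) (by omega)
      · obtain rfl : t' = i + 1 := by omega
        rw [hb2]
        have := hPdec (i0 + i) (i0 + (i + 1)) (by omega) (by omega)
        omega
    · subst h
      rw [hb2, hb3 _ (by omega)]
      have := hPdec (i0 + i + 2) (i0 + (i + 1) + 2) (by omega) (by omega)
      omega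
    · rw [hb3 _ h, hb3 _ (by omega)]; exact hPdec _ _ (by omega) (by omega)
  · intro i hi
    exact ⟨(hP (i0 + i) (by omega)).1, (hP (i0 + i) (by omega)).2.1⟩
  · intro i hi
    rcases lt_trichotomy i t' with h | h | h
    · rw [hb1 i h]
      exact ⟨(hP (i0 + i) (by omega)).1, (hP (i0 + i) (by omega)).2.1⟩
    · subst h; rw [hb2]; exact ⟨hz1, hz2⟩
    · rw [hb3 i h]
      exact ⟨(hP (i0 + i + 2) (by omega)).1, (hP (i0 + i + 2) (by omega)).2.1⟩
  · intro i hi
    obtain ⟨h1, h2, h3⟩ := hP (i0 + i) (by omega)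
    exact hty _ h2 i (by rw [h3])
  · intro i hi
    rcases lt_trichotomy i t' with h | h | h
    · rw [hb1 i h]
      obtain ⟨h1, h2, h3⟩ := hP (i0 + i) (by omega)
      exact hty _ h2 i (by rw [h3])
    · subst h; rw [hb2]; exact hty _ hz2 i hzR
    · rw [hb3 i h]
      obtain ⟨h1, h2, h3⟩ := hP (i0 + i + 2) (by omega)
      exact hty _ h2 i (by rw [h3]; omega)
  · have z1 : ∀ s ≤ t', Z b s = Z a s := by
      intro s
      induction s with
      | zero => intro _; simp [Z]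
      | succ s ih =>
        intro hs
        rw [Z_succ, Z_succ, ih (by omega), hb1 s (by omega)]
    have z2 : ∀ s, Z b (t' + 1 + s) = Z a (t' + 3 + s) := by
      intro s
      induction s with
      | zero =>
        rw [add_zero, add_zero, Z_succ b, z1 t' (le_refl _), hb2, Z_succ a, Z_succ a, Z_succ a]
        simp only [ha]
        have hz' : ((z : ℕ) : ℤ) = P (i0 + t') - P (i0 + (t' + 1)) + P (i0 + (t' + 2)) := by
          have : (z : ℤ) + P (i0 + t' + 1) = P (i0 + t') + P (i0 + t' + 2) := by exact_mod_cast hz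
          rw [show i0 + (t' + 1) = i0 + t' + 1 by ring, show i0 + (t' + 2) = i0 + t' + 2 by ring]
          linarith
        rw [hz']
        ring
      | succ s ih =>
        rw [show t' + 1 + (s + 1) = t' + 1 + s + 1 by ring, show t' + 3 + (s + 1) = t' + 3 + s + 1 by ring,
          Z_succ b, Z_succ a, ih, hb3 _ (by omega)]
        simp only [ha]
        rw [show i0 + (t' + 1 + s) + 2 = i0 + (t' + 3 + s) by ring]
        ring
    have := z2 (k - 2 - t')
    rw [show t' + 1 + (k - 2 - t') = k - 2 + 1 by omega,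
      show t' + 3 + (k - 2 - t') = k + 1 by omega] at this
    exact this.symm

end Pool.Agent.Helper74.XP
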