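import Mathlib

/-!
# Extended Petersen graphs, part 1: cutting Hamiltonian cycles of `ZMod n`
-/

set_option autoImplicit false

namespace Pool.Agent.Helper74.XP

open Function

/-- `{x, y}` is an edge of the closed walk `C 0, C 1, …`. -/
def Edge {n : ℕ} (C : ZMod n → ZMod n) (x y : ZMod n) : Prop :=
  ∃ j, (C j = x ∧ C (j + 1) = y) ∨ (C j = y ∧ C (j + 1) = x)

theorem Edge.symm {n : ℕ} {C : ZMod n → ZMod n} {x y : ZMod n} (h : Edge C x y) : Edge C y x := by
  obtain ⟨j, h | h⟩ := h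
  · exact ⟨j, Or.inr h⟩
  · exact ⟨j, Or.inl h⟩

/-- the two matchings of the path `1, 2, …, n - 1, 0` -/
def G0 (n : ℕ) (b : Bool) (j : ZMod n) : ZMod n :=
  if (j - 1).val = (if b then 0 else n - 1) then j
  else if ((j - 1).val % 2 = 0) = (b = false) then j + 1 else j - 1

theorem G0_inv {n : ℕ} (hn : n % 2 = 1) (h3 : 3 ≤ n) (b : Bool) : Involutive (G0 n b) := by
  have : NeZero n := ⟨by omega⟩
  have : Fact (1 < n) := ⟨by omega⟩
  intro j
  obtain ⟨w, hw⟩ : ∃ w, (j - 1).val = w := ⟨_, rfl⟩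
  have hlt : w < n := hw ▸ ZMod.val_lt _
  have hj : j = (w : ZMod n) + 1 := by
    rw [← hw, ZMod.natCast_zmod_val]; ring
  have key : ∀ v : ℕ, v < n → G0 n b ((v : ZMod n) + 1) =
      if v = (if b then 0 else n - 1) then (v : ZMod n) + 1
      else if (v % 2 = 0) = (b = false) then (v : ZMod n) + 1 + 1 else (v : ZMod n) + 1 - 1 := by
    intro v hv
    have : ((v : ZMod n) + 1 - 1).val = v := by
      rw [add_sub_cancel_right, ZMod.val_natCast, Nat.mod_eq_of_lt hv]
    simp only [G0, this]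
  rw [hj, key w hlt]
  cases b
  · simp only [Bool.false_eq_true, if_false]
    split_ifs with h1 h2
    · rw [key w hlt]; simp [h1]
    · have h2' : w % 2 = 0 := by simpa using h2
      have hw1 : w + 1 < n := by omega
      have := key (w + 1) hw1
      push_cast at this
      rw [this]
      have e1 : ¬ (w + 1 = n - 1 ∧ True) ∨ (w + 1 = n - 1) := by tauto
      have h3' : ¬ (w + 1 = n - 1) := by omega
      have h4 : ¬ ((w + 1) % 2 = 0) := by omega
      simp [h3', h4]
    · have h2' : ¬ (w % 2 = 0) := by simpa using h2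
      obtain ⟨v, rfl⟩ : ∃ v, w = v + 1 := ⟨w - 1, by omega⟩
      have hv : v < n := by omega
      have e : ((v + 1 : ℕ) : ZMod n) + 1 - 1 = (v : ZMod n) + 1 := by push_cast; ring
      rw [e, key v hv]
      have h3' : ¬ (v = n - 1) := by omega
      have h4 : v % 2 = 0 := by omega
      simp [h3', h4]
  · simp only [if_true]
    split_ifs with h1 h2
    · rw [key w hlt]; simp [h1]
    · have h2' : ¬ (w % 2 = 0) := by
        intro h; rw [eq_comm] at h2; simp [h] at h2
      have hw1 : w + 1 < n := by omega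
      have := key (w + 1) hw1
      push_cast at this
      rw [this]
      have h4 : ((w + 1) % 2 = 0) := by omega
      simp [h4]
    · have h2' : w % 2 = 0 := by
        by_contra h; apply h2; simp [h]
      obtain ⟨v, rfl⟩ : ∃ v, w = v + 1 := ⟨w - 1, by omega⟩
      have hv : v < n := by omega
      have e : ((v + 1 : ℕ) : ZMod n) + 1 - 1 = (v : ZMod n) + 1 := by push_cast; ring
      rw [e, key v hv]
      have h3' : ¬ (v = 0) := by omega
      have h4 : ¬ (v % 2 = 0) := by omega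
      simp [h3', h4]

theorem G0_false {n : ℕ} (h3 : 3 ≤ n) : G0 n false 0 = 0 := by
  have : NeZero n := ⟨by omega⟩
  have : ((0 : ZMod n) - 1).val = n - 1 := by
    obtain ⟨m, rfl⟩ : ∃ m, n = m + 1 := ⟨n - 1, by omega⟩
    rw [zero_sub, ZMod.val_neg_one]; rfl
  unfold G0
  rw [this]
  simp

theorem G0_true (n : ℕ) : G0 n true 1 = 1 := by
  simp [G0]

theorem G0_cov {n : ℕ} (h3 : 3 ≤ n) {j : ZMod n} (hj : j ≠ 0) : ∃ b, G0 n b j = j + 1 := by
  have : NeZero n := ⟨by omega⟩
  have hne : (j - 1).val ≠ n - 1 := by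
    intro h
    apply hj
    have : j - 1 = -1 := by
      apply ZMod.val_injective n
      rw [h]
      obtain ⟨m, rfl⟩ : ∃ m, n = m + 1 := ⟨n - 1, by omega⟩
      rw [ZMod.val_neg_one]; rfl
    linear_combination this
  by_cases h : (j - 1).val % 2 = 0
  · exact ⟨false, by simp [G0, hne, h]⟩
  · refine ⟨true, ?_⟩
    have h0 : (j - 1).val ≠ 0 := by omega
    simp [G0, h0, h]

/-- Cut lemma: a Hamiltonian cycle of `ZMod n` (`n` odd) without the edge `{u, v}` is the union of two
matchings, one avoiding `u` and one avoiding `v`. -/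
theorem cut {n : ℕ} (hn : n % 2 = 1) (h3 : 3 ≤ n) (C : Equiv.Perm (ZMod n)) {u v : ZMod n}
    (huv : Edge C u v) :
    ∃ G : Bool → ZMod n → ZMod n, (∀ b, Involutive (G b)) ∧ G false u = u ∧ G true v = v ∧
      ∀ x y, Edge C x y → (∃ b, G b x = y) ∨ (x = u ∧ y = v) ∨ (x = v ∧ y = u) := by
  obtain ⟨j0, hj⟩ := huv
  set H : Bool → ZMod n → ZMod n := fun b x => C (j0 + G0 n b (C.symm x - j0)) with hH
  have hinv : ∀ b, Involutive (H b) := by
    intro b x
    simp only [hH, Equiv.symm_apply_apply, add_sub_cancel_left]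
    rw [G0_inv hn h3 b]
    simp
  have hf : H false (C j0) = C j0 := by
    simp [hH, G0_false h3]
  have ht : H true (C (j0 + 1)) = C (j0 + 1) := by
    simp [hH, G0_true]
  have hc : ∀ j, j ≠ j0 → ∃ b, H b (C j) = C (j + 1) := by
    intro j hj
    obtain ⟨b, hb⟩ := G0_cov h3 (sub_ne_zero.mpr hj)
    refine ⟨b, ?_⟩
    simp only [hH, Equiv.symm_apply_apply, hb]
    congr 1; ring
  have hc' : ∀ x y, Edge C x y → (∃ b, H b x = y) ∨ (x = C j0 ∧ y = C (j0 + 1)) ∨
      (x = C (j0 + 1) ∧ y = C j0) := by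
    rintro x y ⟨j, ⟨rfl, rfl⟩ | ⟨rfl, rfl⟩⟩
    · by_cases h : j = j0
      · subst h; exact Or.inr (Or.inl ⟨rfl, rfl⟩)
      · exact Or.inl (hc j h)
    · by_cases h : j = j0
      · subst h; exact Or.inr (Or.inr ⟨rfl, rfl⟩)
      · obtain ⟨b, hb⟩ := hc j h
        exact Or.inl ⟨b, by rw [← hb]; exact hinv b _⟩
  rcases hj with ⟨rfl, rfl⟩ | ⟨rfl, rfl⟩
  · exact ⟨H, hinv, hf, ht, hc'⟩
  · refine ⟨fun b => H (!b), fun b => hinv _, ht, hf, fun x y h => ?_⟩
    rcases hc' x y h with ⟨b, hb⟩ | h | h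
    · exact Or.inl ⟨!b, by simpa using hb⟩
    · exact Or.inr (Or.inr h)
    · exact Or.inr (Or.inl h)

end Pool.Agent.Helper74.XP
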