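import Pool.Agent.Helper74.XP.Choose

/-!
# Extended Petersen graphs, part 8: prime orders
-/

set_option autoImplicit false

namespace Pool.Agent.Helper74.XP

open Function

section

variable {p k : ℕ} [Fact p.Prime]

theorem R_big {S : Finset ℕ} {k j0 : ℕ} (hk : 2 ≤ k)
    (h : ∀ i, 1 ≤ i → i < 2 * k → i ≠ j0 → ¬ (i ∈ S ↔ i + 1 ∈ S)) : k ≤ R S k 1 := by
  classical
  have h1 : ((Finset.Ico 1 (2 * k)).erase j0).card ≤ R S k 1 := by
    unfold R
    rw [Finset.card_eq_sum_ones]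
    calc ∑ i ∈ (Finset.Ico 1 (2 * k)).erase j0, 1
        = ∑ i ∈ (Finset.Ico 1 (2 * k)).erase j0, (if (i ∈ S ↔ i + 1 ∈ S) then 0 else 1) := by
          refine Finset.sum_congr rfl fun i hi => ?_
          rw [Finset.mem_erase, Finset.mem_Ico] at hi
          rw [if_neg (h i hi.2.1 hi.2.2 hi.1)]
      _ ≤ _ := Finset.sum_le_sum_of_subset (Finset.erase_subset _ _)
  have h2 : 2 * k - 1 - 1 ≤ ((Finset.Ico 1 (2 * k)).erase j0).card := by
    have := Finset.pred_card_le_card_erase (s := Finset.Ico 1 (2 * k)) (a := j0)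
    rwa [Nat.card_Ico] at this
  omega

/-- the case of an alternating set: multiply by three -/
theorem alt_three (hp : p = 4 * k + 1) (hk : 3 ≤ k) {S : Finset ℕ}
    (hS : ∀ i, 1 ≤ i → i < 2 * k → ¬ (i ∈ S ↔ i + 1 ∈ S)) :
    k ≤ R (SU k S (3 : ZMod p)) k 1 ∧
      ∃ j, 1 ≤ j ∧ j < 2 * k ∧ (j ∈ SU k S (3 : ZMod p) ↔ j + 1 ∈ SU k S (3 : ZMod p)) := by
  have h0 : (p : ZMod p) = 0 := ZMod.natCast_self p
  have hty : ∀ i, i + 1 ≤ 2 * k → (i + 1 ∈ S ↔ ((i + 1) % 2 = 1 ↔ 1 ∈ S)) := by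
    intro i
    induction i with
    | zero => intro _; simp
    | succ i ih =>
      intro hi
      have h1 := ih (by omega)
      have h2 := hS (i + 1) (by omega) (by omega)
      have h3 : ((i + 1 + 1) % 2 = 1 ↔ ¬ ((i + 1) % 2 = 1)) := by omega
      rw [h3]
      tauto
  have hty' : ∀ i, 1 ≤ i → i ≤ 2 * k → (i ∈ S ↔ (i % 2 = 1 ↔ 1 ∈ S)) := by
    intro i h1 h2
    have := hty (i - 1) (by omega)
    rwa [show i - 1 + 1 = i by omega] at this
  have h3p : 3 * ((p / 3 : ℕ)) ≠ p := by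
    intro h
    have h1 : 3 ∣ p := ⟨p / 3, h.symm⟩
    have := (Nat.prime_dvd_prime_iff_eq Nat.prime_three Fact.out).mp h1
    omega
  have hSU : ∀ j, 1 ≤ j → j ≤ 2 * k →
      (j ∈ SU k S (3 : ZMod p) ↔ ((if 3 * j ≤ 2 * k then j % 2 = 1 else j % 2 = 0) ↔ 1 ∈ S)) := by
    intro j hj hj2
    have e1 : j ∈ SU k S (3 : ZMod p) ↔ cls ((3 : ZMod p) * (j : ZMod p)) ∈ S := by
      unfold SU
      rw [Finset.mem_filter, Finset.mem_Icc]
      exact ⟨fun h => h.2, fun h => ⟨⟨hj, hj2⟩, h⟩⟩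
    rw [e1]
    rcases Nat.lt_or_ge (2 * k) (3 * j) with h | h
    · rw [if_neg (by omega)]
      rcases Nat.lt_or_ge (3 * j) p with h' | h'
      · have e2 : (3 : ZMod p) * (j : ZMod p) = -(((p - 3 * j : ℕ)) : ZMod p) := by
          rw [Nat.cast_sub h'.le, h0]; push_cast; ring
        rw [e2, cls_neg, cls_cast (by omega), hty' _ (by omega) (by omega)]
        have : ((p - 3 * j) % 2 = 1 ↔ j % 2 = 0) := by omega
        rw [this]
      · have hne : 3 * j ≠ p := by
          intro h''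
          apply h3p
          rw [← h'']; omega
        have e2 : (3 : ZMod p) * (j : ZMod p) = (((3 * j - p : ℕ)) : ZMod p) := by
          rw [Nat.cast_sub h', h0]; push_cast; ring
        rw [e2, cls_cast (by omega), hty' _ (by omega) (by omega)]
        have : ((3 * j - p) % 2 = 1 ↔ j % 2 = 0) := by omega
        rw [this]
    · rw [if_pos (by omega)]
      have e2 : (3 : ZMod p) * (j : ZMod p) = ((3 * j : ℕ) : ZMod p) := by push_cast; ring
      rw [e2, cls_cast (by omega), hty' _ (by omega) (by omega)]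
      have : ((3 * j) % 2 = 1 ↔ j % 2 = 1) := by omega
      rw [this]
  refine ⟨R_big (j0 := 2 * k / 3) (by omega) ?_, 2 * k / 3, by omega, by omega, ?_⟩
  · intro i h1 h2 h3
    rw [hSU i h1 (by omega), hSU (i + 1) (by omega) (by omega)]
    rcases Nat.lt_or_ge (2 * k) (3 * i) with h | h
    · rw [if_neg (by omega), if_neg (by omega)]
      have : ((i + 1) % 2 = 0 ↔ ¬ (i % 2 = 0)) := by omega
      rw [this]
      tauto
    · rw [if_pos (by omega), if_pos (by omega)]
      have : ((i + 1) % 2 = 1 ↔ ¬ (i % 2 = 1)) := by omega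
      rw [this]
      tauto
  · rw [hSU _ (by omega) (by omega), hSU _ (by omega) (by omega), if_pos (by omega), if_neg (by omega)]
    have : ((2 * k / 3 + 1) % 2 = 0 ↔ (2 * k / 3) % 2 = 1) := by omega
    rw [this]

/-- Both halves exist for all sets `S`. -/
theorem good_all (hp : p = 4 * k + 1) (hk : 2 ≤ k) {S : Finset ℕ} (hS : S ⊆ Finset.Icc 1 (2 * k))
    (hSk : S.card = k) : Good (fun d : ZMod p => cls d ∈ S) (2 * k) := by
  obtain ⟨u, hu, hM⟩ := exists_unit hp (by omega) hS hSk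
  have hk3 : 3 ≤ k := by
    rcases Nat.lt_or_ge k 3 with h | h
    · exfalso
      obtain rfl : k = 2 := by omega
      have : p.Prime := Fact.out
      subst hp
      revert this
      norm_num
    · exact h
  refine good_of_SU hp hu ?_
  have hc : (SU k S u).card = k := by rw [card_SU hp hS hu, hSk]
  rcases Nat.mod_two_eq_zero_or_one k with hk2 | hk2
  · exact good_even hp hk hk2 SU_sub hc hM
  · by_cases h : ∃ j, 1 ≤ j ∧ j < 2 * k ∧ (j ∈ SU k S u ↔ j + 1 ∈ SU k S u)
    · obtain ⟨j, h1, h2, h3⟩ := h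
      exact good_odd hp hk3 hk2 SU_sub hc hM h1 h2 h3
    · push Not at h
      have h30 : (3 : ZMod p) ≠ 0 := by
        have := cast_ne hp (t := 3) (by rw [Finset.mem_Icc]; omega)
        exact_mod_cast this
      obtain ⟨h4, j, h5, h6, h7⟩ := alt_three hp hk3 (S := SU k S u) (fun i h1 h2 h3 => by
        rcases h i h1 h2 with h | h <;> tauto)
      refine good_of_SU hp h30 ?_
      exact good_odd hp hk3 hk2 SU_sub (by rw [card_SU hp SU_sub h30, hc]) h4 h5 h6 h7

end

end Pool.Agent.Helper74.XP
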