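import Pool.Agent.Helper74.XP.Classes

/-!
# Extended Petersen graphs, part 4: from matchings to the edge colouring
-/

set_option autoImplicit false

namespace Pool.Agent.Helper74.XP

open Function

/-- Matchings `f z`, `z ∈ Y`, avoiding `z`, and a matching `a` of `Y` which cover the graph of `P`. -/
def Half {n : ℕ} (P : ZMod n → Prop) (Y : Finset (ZMod n)) : Prop :=
  ∃ (f : ZMod n → ZMod n → ZMod n) (a : ZMod n → ZMod n),
    (∀ z ∈ Y, Involutive (f z) ∧ f z z = z) ∧ Involutive a ∧ (∀ x, x ∉ Y → a x = x) ∧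
      ∀ x y, x ≠ y → P (y - x) → (∃ z ∈ Y, f z x = y) ∨ a x = y

/-- both halves for a common set `Y` of size `m` -/
def Good {n : ℕ} (P : ZMod n → Prop) (m : ℕ) : Prop :=
  ∃ Y : Finset (ZMod n), Y.card = m ∧ Half P Y ∧ Half (fun d => ¬ P d) Y

theorem Half.mono {n : ℕ} {P Q : ZMod n → Prop} {Y : Finset (ZMod n)} (h : Half P Y)
    (hPQ : ∀ d, d ≠ 0 → Q d → P d) : Half Q Y := by
  obtain ⟨f, a, h1, h2, h3, h4⟩ := h
  exact ⟨f, a, h1, h2, h3, fun x y hxy hq => h4 x y hxy (hPQ _ (sub_ne_zero.mpr hxy.symm) hq)⟩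

theorem Good.congr {n m : ℕ} {P Q : ZMod n → Prop} (h : Good P m) (hPQ : ∀ d, d ≠ 0 → (Q d ↔ P d)) :
    Good Q m := by
  obtain ⟨Y, hY, h1, h2⟩ := h
  exact ⟨Y, hY, h1.mono fun d hd h => (hPQ d hd).mp h, h2.mono fun d hd h h' => h ((hPQ d hd).mpr h')⟩

theorem Good.not {n m : ℕ} {P : ZMod n → Prop} (h : Good P m) : Good (fun d => ¬ P d) m := by
  obtain ⟨Y, hY, h1, h2⟩ := h
  exact ⟨Y, hY, h2, h1.mono fun d _ h => not_not.mp h⟩

theorem Half.scale {p : ℕ} [Fact p.Prime] {P : ZMod p → Prop} {Y : Finset (ZMod p)} {u : ZMod p}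
    (hu : u ≠ 0) (h : Half (fun d => P (u * d)) Y) :
    Half P (Y.map (Equiv.mulLeft₀ u hu).toEmbedding) := by
  obtain ⟨f, a, h1, h2, h3, h4⟩ := h
  refine ⟨fun z x => u * f (z / u) (x / u), fun x => u * a (x / u), ?_, ?_, ?_, ?_⟩
  · intro z hz
    obtain ⟨y, hy, rfl⟩ := Finset.mem_map.mp hz
    have e : (Equiv.mulLeft₀ u hu).toEmbedding y / u = y := by
      show u * y / u = y
      field_simp
    obtain ⟨i1, i2⟩ := h1 y hy
    refine ⟨fun x => ?_, ?_⟩
    · simp only [e]
      rw [mul_div_cancel_left₀ _ hu, i1]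
      field_simp
    · simp only [e]
      rw [i2]; rfl
  · intro x
    simp only
    rw [mul_div_cancel_left₀ _ hu, h2]
    field_simp
  · intro x hx
    have : x / u ∉ Y := by
      intro h
      apply hx
      refine Finset.mem_map.mpr ⟨x / u, h, ?_⟩
      show u * (x / u) = x
      field_simp
    simp only [h3 _ this]
    field_simp
  · intro x y hxy hP
    have hne : x / u ≠ y / u := by
      intro h; apply hxy
      field_simp at h; exact h
    have := h4 (x / u) (y / u) hne (by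
      show P (u * (y / u - x / u))
      rwa [show u * (y / u - x / u) = y - x by field_simp])
    rcases this with ⟨z, hz, h⟩ | h
    · refine Or.inl ⟨u * z, Finset.mem_map.mpr ⟨z, hz, rfl⟩, ?_⟩
      simp only
      rw [mul_div_cancel_left₀ _ hu, h]
      field_simp
    · right
      simp only [h]
      field_simp

theorem Good.scale {p m : ℕ} [Fact p.Prime] {P : ZMod p → Prop} {u : ZMod p}
    (hu : u ≠ 0) (h : Good (fun d => P (u * d)) m) : Good P m := by
  obtain ⟨Y, hY, h1, h2⟩ := h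
  exact ⟨_, by rw [Finset.card_map, hY], h1.scale hu, Half.scale hu (P := fun d => ¬ P d) h2⟩

/-- A family of matchings covering all edges gives an edge colouring. -/
theorem colour_of_inv {V C : Type} [Fintype C] (G : SimpleGraph V) {m : ℕ} (hC : Fintype.card C = m)
    (hm : 0 < m) (φ : C → V → V) (hφ : ∀ c, Involutive (φ c))
    (hcov : ∀ x y, G.Adj x y → ∃ c, φ c x = y) :
    ∃ c : Sym2 V → Fin m, ∀ e ∈ G.edgeSet, ∀ f ∈ G.edgeSet, e ≠ f →
        (∃ v, v ∈ e ∧ v ∈ f) → c e ≠ c f := by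
  classical
  have hex : ∀ e ∈ G.edgeSet, ∃ c, ∀ v, v ∈ e → e = s(v, φ c v) := by
    intro e
    induction e using Sym2.ind with
    | _ x y =>
      intro he
      obtain ⟨c, hc⟩ := hcov x y ((SimpleGraph.mem_edgeSet G).mp he)
      refine ⟨c, fun v hv => ?_⟩
      rcases Sym2.mem_iff.mp hv with rfl | rfl
      · rw [hc]
      · rw [← hc, hφ c x, Sym2.eq_swap]
  let q : C ≃ Fin m := Fintype.equivFinOfCardEq hC
  refine ⟨fun e => if h : e ∈ G.edgeSet then q (hex e h).choose else ⟨0, hm⟩, ?_⟩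
  rintro e he f hf hne ⟨v, hve, hvf⟩ h
  simp only [he, hf, dif_pos] at h
  have h' := q.injective h
  have h1 := (hex e he).choose_spec v hve
  have h2 := (hex f hf).choose_spec v hvf
  apply hne
  rw [h1, h2, h']

open Classical in
/-- The edge colouring of the extended Petersen graph. -/
theorem Good.colour {n m : ℕ} [NeZero n] {P : ZMod n → Prop} (h : Good P m)
    (G : SimpleGraph (ZMod n × Fin 2))
    (hG : ∀ x y, G.Adj x y → ((x.2 = 0 ∧ y.2 = 0 ∧ x.1 ≠ y.1 ∧ P (y.1 - x.1)) ∨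
      (x.2 = 1 ∧ y.2 = 1 ∧ x.1 ≠ y.1 ∧ ¬ P (y.1 - x.1)) ∨ (x.1 = y.1 ∧ x.2 ≠ y.2))) :
    ∃ c : Sym2 (ZMod n × Fin 2) → Fin (m + 1), ∀ e ∈ G.edgeSet, ∀ f ∈ G.edgeSet, e ≠ f →
        (∃ v, v ∈ e ∧ v ∈ f) → c e ≠ c f := by
  obtain ⟨Y, hY, ⟨f, a, f1, f2, f3, f4⟩, ⟨g, b, g1, g2, g3, g4⟩⟩ := h
  have key : ∀ {a : ZMod n → ZMod n}, Involutive a → (∀ x, x ∉ Y → a x = x) → ∀ x ∈ Y, a x ∈ Y := by
    intro a ha h x hx
    by_contra hx'
    have := h _ hx'
    rw [ha] at this
    rw [← this] at hx'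
    exact hx' hx
  let φ : Option Y → ZMod n × Fin 2 → ZMod n × Fin 2 := fun o v => match o with
    | none => if v.1 ∈ Y then (if v.2 = 0 then (a v.1, 0) else (b v.1, 1)) else (v.1, 1 - v.2)
    | some z => if v.1 = z then (v.1, 1 - v.2) else (if v.2 = 0 then (f z v.1, 0) else (g z v.1, 1))
  have h01 : ∀ i : Fin 2, i ≠ 0 → i = 1 := by decide
  have h10 : ∀ i j : Fin 2, i ≠ j → j = 1 - i := by decide
  have hinv : ∀ o, Involutive (φ o) := by
    rintro (_ | ⟨z, hz⟩) ⟨x, i⟩
    · by_cases hx : x ∈ Y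
      · have hxa := key f2 f3 x hx
        have hxb := key g2 g3 x hx
        by_cases hi : i = 0
        · subst hi; simp [φ, hx, hxa, f2 x]
        · have := h01 i hi
          subst this; simp [φ, hx, hxb, g2 x]
      · simp [φ, hx]
    · obtain ⟨i1, i2⟩ := f1 z hz
      obtain ⟨j1, j2⟩ := g1 z hz
      by_cases hx : x = z
      · subst hx; simp [φ]
      · have hxf : f z x ≠ z := by
          intro h; apply hx; rw [← i1 x, h, i2]
        have hxg : g z x ≠ z := by
          intro h; apply hx; rw [← j1 x, h, j2]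
        by_cases hi : i = 0
        · subst hi; simp [φ, hx, hxf, i1 x]
        · have := h01 i hi
          subst this; simp [φ, hx, hxg, j1 x]
  refine colour_of_inv G (by simp [hY]) (Nat.succ_pos _) φ hinv ?_
  rintro ⟨x, i⟩ ⟨y, j⟩ hadj
  rcases hG _ _ hadj with ⟨h1, h2, h3, h4⟩ | ⟨h1, h2, h3, h4⟩ | ⟨h1, h2⟩
  · simp only at h1 h2 h3 h4
    subst h1 h2
    rcases f4 x y h3 h4 with ⟨z, hz, h⟩ | h
    · refine ⟨some ⟨z, hz⟩, ?_⟩
      have : x ≠ z := by
        rintro rfl; rw [(f1 _ hz).2] at h; exact h3 h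
      simp [φ, this, h]
    · refine ⟨none, ?_⟩
      have : x ∈ Y := by
        by_contra hx; rw [f3 x hx] at h; exact h3 h
      simp [φ, this, h]
  · simp only at h1 h2 h3 h4
    subst h1 h2
    rcases g4 x y h3 h4 with ⟨z, hz, h⟩ | h
    · refine ⟨some ⟨z, hz⟩, ?_⟩
      have : x ≠ z := by
        rintro rfl; rw [(g1 _ hz).2] at h; exact h3 h
      simp [φ, this, h]
    · refine ⟨none, ?_⟩
      have : x ∈ Y := by
        by_contra hx; rw [g3 x hx] at h; exact h3 h
      simp [φ, this, h]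
  · simp only at h1 h2
    subst h1
    have hj : j = 1 - i := h10 i j h2
    subst hj
    by_cases hx : x ∈ Y
    · exact ⟨some ⟨x, hx⟩, by simp [φ]⟩
    · exact ⟨none, by simp [φ, hx]⟩

/-- The covering matchings and the chosen edges give one half. -/
theorem Cov.half {p : ℕ} {ι : Type} [DecidableEq ι] {T : Finset ℕ} {s : Finset ι} {P Q : ι → ZMod p}
    (h : Cov T s P Q) {Y : Finset (ZMod p)} (hY : ∀ z, z ∈ Y ↔ ∃ i ∈ s, P i = z ∨ Q i = z)
    (hd : ∀ i ∈ s, ∀ j ∈ s, i ≠ j → P i ≠ P j ∧ P i ≠ Q j ∧ Q i ≠ Q j) (hne : ∀ i ∈ s, P i ≠ Q i) :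
    Half (fun d => cls d ∈ T) Y := by
  classical
  obtain ⟨F, F1, F2, F3⟩ := h
  let en : s × Bool → ZMod p := fun x => if x.2 then Q x.1 else P x.1
  have hinj : Injective en := by
    rintro ⟨⟨i, hi⟩, b⟩ ⟨⟨j, hj⟩, c⟩ h
    by_cases hij : i = j
    · subst hij
      cases b <;> cases c
      · rfl
      · simp only [en, Bool.false_eq_true, if_false, if_true] at h
        exact absurd h (hne i hi)
      · simp only [en, Bool.false_eq_true, if_false, if_true] at h
        exact absurd h.symm (hne i hi)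
      · rfl
    · exfalso
      obtain ⟨a1, a2, a3⟩ := hd i hi j hj hij
      obtain ⟨b1, b2, b3⟩ := hd j hj i hi (Ne.symm hij)
      cases b <;> cases c
      · simp only [en, Bool.false_eq_true, if_false] at h
        exact a1 h
      · simp only [en, Bool.false_eq_true, if_false, if_true] at h
        exact a2 h
      · simp only [en, Bool.false_eq_true, if_false, if_true] at h
        exact b2 h.symm
      · simp only [en, if_true] at h
        exact a3 h
  have hYen : ∀ z, z ∈ Y ↔ ∃ x, en x = z := by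
    intro z
    rw [hY]
    constructor
    · rintro ⟨i, hi, h | h⟩
      · exact ⟨(⟨i, hi⟩, false), by simpa [en] using h⟩
      · exact ⟨(⟨i, hi⟩, true), by simpa [en] using h⟩
    · rintro ⟨⟨⟨i, hi⟩, b⟩, h⟩
      cases b
      · exact ⟨i, hi, Or.inl (by simpa [en] using h)⟩
      · exact ⟨i, hi, Or.inr (by simpa [en] using h)⟩
  refine ⟨extend en (fun x => F x.1 x.2) (fun _ => id), extend en (fun x => en (x.1, !x.2)) id,
    ?_, ?_, ?_, ?_⟩
  · intro z hz
    obtain ⟨x, rfl⟩ := (hYen z).mp hz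
    rw [hinj.extend_apply]
    refine ⟨F1 _ x.1.2 _, ?_⟩
    obtain ⟨i, b⟩ := x
    cases b
    · exact (F2 i i.2).1
    · exact (F2 i i.2).2
  · intro x
    by_cases hx : ∃ w, en w = x
    · obtain ⟨w, rfl⟩ := hx
      rw [hinj.extend_apply, hinj.extend_apply]
      simp
    · rw [extend_apply' _ _ _ hx]
      simp only [id]
      rw [extend_apply' _ _ _ hx]
      rfl
  · intro x hx
    rw [extend_apply' _ _ _ (fun h => hx ((hYen x).mpr h))]
    rfl
  · intro x y hxy hT
    rcases F3 x y hT with ⟨i, hi, h | h⟩ | ⟨i, hi, b, h⟩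
    · right
      have : en (⟨i, hi⟩, false) = x := by simpa [en] using h.1
      rw [← this, hinj.extend_apply]
      simpa [en] using h.2
    · right
      have : en (⟨i, hi⟩, true) = x := by simpa [en] using h.2
      rw [← this, hinj.extend_apply]
      simpa [en] using h.1
    · left
      refine ⟨en (⟨i, hi⟩, b), (hYen _).mpr ⟨_, rfl⟩, ?_⟩
      rw [hinj.extend_apply]
      exact h

end Pool.Agent.Helper74.XP
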