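import Pool.Agent.Helper74.XP.Cut

/-!
# Extended Petersen graphs, part 2: two cycles with exchanged edges
-/

set_option autoImplicit false

namespace Pool.Agent.Helper74.XP

open Function

/-- reversal of the segment `1, …, m` -/
def rho (n m : ℕ) (j : ZMod n) : ZMod n :=
  if 1 ≤ j.val ∧ j.val ≤ m then (m : ZMod n) + 1 - j else j

section

variable {n m : ℕ}

theorem rho_cast {v : ℕ} (hv : v < n) :
    rho n m (v : ZMod n) = if 1 ≤ v ∧ v ≤ m then ((m + 1 - v : ℕ) : ZMod n) else v := by
  unfold rho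
  rw [ZMod.val_natCast, Nat.mod_eq_of_lt hv]
  split_ifs with h
  · rw [Nat.cast_sub (by omega)]; push_cast; ring
  · rfl

variable [NeZero n]

theorem rho_inv (hm : m < n) : Involutive (rho n m) := by
  intro j
  obtain ⟨v, hv, rfl⟩ : ∃ v, v < n ∧ (v : ZMod n) = j := ⟨j.val, ZMod.val_lt _, by simp⟩
  rw [rho_cast hv]
  split_ifs with h
  · rw [rho_cast (by omega), if_pos (by omega)]
    congr 1; omega
  · rw [rho_cast hv, if_neg h]

theorem rho_edge0 (h1 : 1 ≤ m) (hm : m < n) : Edge (rho n m) 0 m := by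
  refine ⟨0, Or.inl ⟨?_, ?_⟩⟩
  · simp [rho]
  · have := rho_cast (n := n) (m := m) (v := 1) (by omega)
    rw [if_pos (by omega)] at this
    simpa using this

theorem rho_edge1 (h1 : 1 ≤ m) (hm : m < n) : Edge (rho n m) 1 (m + 1) := by
  refine ⟨m, Or.inl ⟨?_, ?_⟩⟩
  · rw [rho_cast hm, if_pos (by omega)]
    have : m + 1 - m = 1 := by omega
    rw [this]; simp
  · rcases Nat.lt_or_ge (m + 1) n with h | h
    · have := rho_cast (n := n) (m := m) (v := m + 1) h
      rw [if_neg (by omega)] at this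
      push_cast at this
      exact this
    · have e : (m : ZMod n) + 1 = 0 := by
        have : m + 1 = n := by omega
        have h2 : ((m + 1 : ℕ) : ZMod n) = 0 := by rw [this]; simp
        exact_mod_cast h2
      rw [e]; simp [rho]

theorem rho_edge (hm : m < n) {t : ZMod n} (h0 : t ≠ 0) (ht : t ≠ m) : Edge (rho n m) t (t + 1) := by
  obtain ⟨v, hv, rfl⟩ : ∃ v, v < n ∧ (v : ZMod n) = t := ⟨t.val, ZMod.val_lt _, by simp⟩
  have hv0 : v ≠ 0 := by rintro rfl; simp at h0
  have hvm : v ≠ m := by rintro rfl; exact ht rfl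
  rcases Nat.lt_or_ge v m with h | h
  · refine ⟨((m - v : ℕ) : ZMod n), Or.inr ⟨?_, ?_⟩⟩
    · rw [rho_cast (by omega), if_pos (by omega)]
      have : m + 1 - (m - v) = v + 1 := by omega
      rw [this]; push_cast; ring
    · have e : ((m - v : ℕ) : ZMod n) + 1 = ((m - v + 1 : ℕ) : ZMod n) := by push_cast; ring
      rw [e, rho_cast (by omega), if_pos (by omega)]
      congr 1; omega
  · refine ⟨v, Or.inl ⟨?_, ?_⟩⟩
    · rw [rho_cast hv, if_neg (by omega)]
    · rcases Nat.lt_or_ge (v + 1) n with h' | h'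
      · have := rho_cast (n := n) (m := m) (v := v + 1) h'
        rw [if_neg (by omega)] at this
        push_cast at this
        exact this
      · have e : (v : ZMod n) + 1 = 0 := by
          have : v + 1 = n := by omega
          have h2 : ((v + 1 : ℕ) : ZMod n) = 0 := by rw [this]; simp
          exact_mod_cast h2
        rw [e]; simp [rho]

end

/-- the Hamiltonian cycle with steps `a` with two edges replaced by edges with step `b` -/
theorem twist {p : ℕ} [Fact p.Prime] {a b : ZMod p} (ha : a ≠ 0) (hb : b ≠ 0) (x : ZMod p) :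
    ∃ C : Equiv.Perm (ZMod p), Edge C x (x + b) ∧ Edge C (x + a) (x + a + b) ∧
      ∀ y, y ≠ x → y ≠ x + b → Edge C y (y + a) := by
  set m := (b / a).val with hmdef
  have hm : m < p := ZMod.val_lt _
  have hba : b / a ≠ 0 := div_ne_zero hb ha
  have h1 : 1 ≤ m := by
    rw [Nat.one_le_iff_ne_zero]
    intro h
    exact hba ((ZMod.val_eq_zero _).mp h)
  have hma : (m : ZMod p) = b / a := ZMod.natCast_zmod_val _
  have hmb : a * (m : ZMod p) = b := by rw [hma]; field_simp
  let e : ZMod p ≃ ZMod p := (Equiv.mulLeft₀ a ha).trans (Equiv.addLeft x)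
  have he : ∀ t, e t = x + a * t := fun t => rfl
  let C : Equiv.Perm (ZMod p) := (rho_inv (n := p) hm).toPerm.trans e
  have hC : ∀ j, C j = x + a * rho p m j := fun j => rfl
  have key : ∀ u v, Edge (rho p m) u v → Edge C (x + a * u) (x + a * v) := by
    rintro u v ⟨j, ⟨h1, h2⟩ | ⟨h1, h2⟩⟩
    · exact ⟨j, Or.inl ⟨by rw [hC, h1], by rw [hC, h2]⟩⟩
    · exact ⟨j, Or.inr ⟨by rw [hC, h1], by rw [hC, h2]⟩⟩
  refine ⟨C, ?_, ?_, ?_⟩
  · have := key _ _ (rho_edge0 h1 hm)
    rwa [hmb, mul_zero, add_zero] at this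
  · have := key _ _ (rho_edge1 h1 hm)
    rwa [mul_add, hmb, mul_one, show x + (b + a) = x + a + b by ring] at this
  · intro y hy hyb
    have e1 : x + a * ((y - x) / a) = y := by field_simp; ring
    have ht0 : (y - x) / a ≠ 0 := div_ne_zero (sub_ne_zero.mpr hy) ha
    have htm : (y - x) / a ≠ m := by
      intro h
      apply hyb
      rw [← hmb, ← h, e1]
    have := key _ _ (rho_edge hm ht0 htm)
    rwa [mul_add, mul_one, ← add_assoc, e1] at this

/-- the Hamiltonian cycle with steps `a` -/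
theorem cycle {p : ℕ} [Fact p.Prime] {a : ZMod p} (ha : a ≠ 0) :
    ∃ C : Equiv.Perm (ZMod p), ∀ y, Edge C y (y + a) := by
  refine ⟨Equiv.mulLeft₀ a ha, fun y => ⟨y / a, Or.inl ⟨?_, ?_⟩⟩⟩
  · show a * (y / a) = y
    field_simp
  · show a * (y / a + 1) = y + a
    field_simp

end Pool.Agent.Helper74.XP
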