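import Pool.Agent.Helper74.XP.Good

/-!
# Extended Petersen graphs, part 5: zigzag cycles
-/

set_option autoImplicit false

namespace Pool.Agent.Helper74.XP

open Function

theorem cls_le {n : ℕ} [NeZero n] (d : ZMod n) : cls d ≤ n / 2 := ZMod.natAbs_valMinAbs_le d

theorem cls_cast {n t : ℕ} [NeZero n] (ht : t ≤ n / 2) : cls (t : ZMod n) = t := by
  unfold cls
  rw [ZMod.valMinAbs_natCast_of_le_half ht]
  rfl

/-- every second step of an injective sequence, all steps of classes in `T`, each class at most twice -/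
theorem seq_half {p k : ℕ} [Fact p.Prime] (hp : p = 4 * k + 1) {T : Finset ℕ}
    (hT : T ⊆ Finset.Icc 1 (2 * k)) (hTk : T.card = k) {y : ℕ → ZMod p}
    (hinj : ∀ i < 2 * k, ∀ j < 2 * k, y i = y j → i = j)
    (hcls : ∀ i < k, cls (y (2 * i + 1) - y (2 * i)) ∈ T) (col : ℕ → Bool)
    (hcol : ∀ i < k, ∀ j < k, cls (y (2 * i + 1) - y (2 * i)) = cls (y (2 * j + 1) - y (2 * j)) →
      col i = col j → i = j) :
    Half (fun d => cls d ∈ T) ((Finset.range (2 * k)).image y) := by
  have hp2 : p ≠ 2 := by omega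
  have hd : ∀ i ∈ Finset.range k, ∀ j ∈ Finset.range k, i ≠ j →
      y (2 * i) ≠ y (2 * j) ∧ y (2 * i) ≠ y (2 * j + 1) ∧ y (2 * i + 1) ≠ y (2 * j + 1) := by
    intro i hi j hj hij
    rw [Finset.mem_range] at hi hj
    refine ⟨fun h => ?_, fun h => ?_, fun h => ?_⟩
    · have := hinj _ (by omega) _ (by omega) h; omega
    · have := hinj _ (by omega) _ (by omega) h; omega
    · have := hinj _ (by omega) _ (by omega) h; omega
  refine Cov.half (s := Finset.range k) (P := fun i => y (2 * i)) (Q := fun i => y (2 * i + 1))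
    (cov_all hp2 T _ _ _ ?_ ?_ ?_ ?_ ?_) ?_ hd ?_
  · intro t ht
    have h1 := Finset.mem_Icc.mp (hT ht)
    have h2 : cls (t : ZMod p) = t := cls_cast (by omega)
    refine ⟨t, fun h => ?_, h2⟩
    rw [h, cls_eq_zero.mpr rfl] at h2
    omega
  · intro i hi
    exact hcls i (Finset.mem_range.mp hi)
  · rw [Finset.card_range, hTk]
  · intro t _
    have : (2 : ℕ) = (Finset.univ : Finset Bool).card := rfl
    rw [this]
    refine Finset.card_le_card_of_injOn col (fun _ _ => Finset.mem_univ _) ?_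
    intro i hi j hj h
    rw [Finset.mem_coe, Finset.mem_filter, Finset.mem_range] at hi hj
    exact hcol i hi.1 j hj.1 (hi.2.trans hj.2.symm) h
  · intro i hi j hj hij
    exact ⟨(hd i hi j hj hij).1, (hd i hi j hj hij).2.1⟩
  · intro z
    rw [Finset.mem_image]
    constructor
    · rintro ⟨j, hj, rfl⟩
      rw [Finset.mem_range] at hj
      refine ⟨j / 2, Finset.mem_range.mpr (by omega), ?_⟩
      rcases Nat.even_or_odd' j with ⟨c, hc | hc⟩
      · left; show y (2 * (j / 2)) = y j; congr 1; omega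
      · right; show y (2 * (j / 2) + 1) = y j; congr 1; omega
    · rintro ⟨i, hi, h | h⟩
      · rw [Finset.mem_range] at hi
        exact ⟨2 * i, Finset.mem_range.mpr (by omega), h⟩
      · rw [Finset.mem_range] at hi
        exact ⟨2 * i + 1, Finset.mem_range.mpr (by omega), h⟩
  · intro i hi h
    rw [Finset.mem_range] at hi
    have := hinj _ (by omega) _ (by omega) h
    omega

/-- An alternating cycle of length `2 * k`. -/
theorem good_of_cycle {p k : ℕ} [Fact p.Prime] (hp : p = 4 * k + 1) {S : Finset ℕ}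
    (hS : S ⊆ Finset.Icc 1 (2 * k)) (hSk : S.card = k) {y : ℕ → ZMod p} (hy : y (2 * k) = y 0)
    (hinj : ∀ i < 2 * k, ∀ j < 2 * k, y i = y j → i = j)
    (hA : ∀ j < 2 * k, j % 2 = 1 → cls (y (j + 1) - y j) ∈ S)
    (hB : ∀ j < 2 * k, j % 2 = 0 → cls (y (j + 1) - y j) ∉ S) (col : ℕ → Bool)
    (hcol : ∀ i < 2 * k, ∀ j < 2 * k, cls (y (i + 1) - y i) = cls (y (j + 1) - y j) →
      col i = col j → i = j) :
    Good (fun d : ZMod p => cls d ∈ S) (2 * k) := by
  have hinj' : ∀ i < 2 * k, ∀ j < 2 * k, y (i + 1) = y (j + 1) → i = j := by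
    intro i hi j hj h
    rcases eq_or_ne (i + 1) (2 * k) with h1 | h1 <;> rcases eq_or_ne (j + 1) (2 * k) with h2 | h2
    · omega
    · rw [h1, hy] at h
      have := hinj _ (by omega) _ (by omega) h
      omega
    · rw [h2, hy] at h
      have := hinj _ (by omega) _ (by omega) h
      omega
    · have := hinj _ (by omega) _ (by omega) h
      omega
  have hcls : ∀ d : ZMod p, d ≠ 0 → cls d ∈ Finset.Icc 1 (2 * k) := by
    intro d hd
    rw [Finset.mem_Icc]
    have h1 := cls_le d
    have h2 : cls d ≠ 0 := fun h => hd (cls_eq_zero.mp h)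
    omega
  have hYeq : (Finset.range (2 * k)).image (fun i => y (i + 1)) = (Finset.range (2 * k)).image y := by
    ext z
    simp only [Finset.mem_image, Finset.mem_range]
    constructor
    · rintro ⟨j, hj, h⟩
      rcases eq_or_ne (j + 1) (2 * k) with h1 | h1
      · exact ⟨0, by omega, by rw [← h, h1, hy]⟩
      · exact ⟨j + 1, by omega, h⟩
    · rintro ⟨j, hj, h⟩
      rcases Nat.eq_zero_or_pos j with rfl | h1
      · exact ⟨2 * k - 1, by omega, by rw [← h, ← hy]; congr 1; omega⟩
      · exact ⟨j - 1, by omega, by rw [← h]; congr 1; omega⟩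
  refine ⟨(Finset.range (2 * k)).image y, ?_, ?_, ?_⟩
  · rw [Finset.card_image_of_injOn, Finset.card_range]
    intro i hi j hj h
    simp only [Finset.coe_range, Set.mem_Iio] at hi hj
    exact hinj i hi j hj h
  · rw [← hYeq]
    refine seq_half hp hS hSk hinj' ?_ (fun i => col (2 * i + 1)) ?_
    · intro i hi
      exact hA (2 * i + 1) (by omega) (by omega)
    · intro i hi j hj h1 h2
      have := hcol (2 * i + 1) (by omega) (2 * j + 1) (by omega) h1 h2
      omega
  · have hTk : (Finset.Icc 1 (2 * k) \ S).card = k := by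
      rw [Finset.card_sdiff_of_subset hS, hSk, Nat.card_Icc]; omega
    refine Half.mono (P := fun d => cls d ∈ Finset.Icc 1 (2 * k) \ S) ?_ ?_
    · refine seq_half hp Finset.sdiff_subset hTk hinj ?_ (fun i => col (2 * i)) ?_
      · intro i hi
        refine Finset.mem_sdiff.mpr ⟨hcls _ ?_, hB (2 * i) (by omega) (by omega)⟩
        intro h
        have := hinj _ (by omega) _ (by omega) (sub_eq_zero.mp h)
        omega
      · intro i hi j hj h1 h2
        have := hcol (2 * i) (by omega) (2 * j) (by omega) h1 h2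
        omega
    · intro d hd h
      exact Finset.mem_sdiff.mpr ⟨hcls d hd, h⟩

/-- alternating sums -/
def Z (a : ℕ → ℕ) (m : ℕ) : ℤ := ∑ i ∈ Finset.range m, (-1) ^ i * (a i : ℤ)

theorem Z_succ (a : ℕ → ℕ) (m : ℕ) : Z a (m + 1) = Z a m + (-1) ^ m * (a m : ℤ) :=
  Finset.sum_range_succ _ _

theorem Z_one (a : ℕ → ℕ) : Z a 1 = a 0 := by simp [Z]

theorem Z_bounds {a : ℕ → ℕ} {m : ℕ} (hdec : ∀ i < m, a (i + 1) < a i) (hpos : ∀ i ≤ m, 0 < a i) :
    ∀ l i, 1 ≤ l → i + l ≤ m + 1 → 0 < (-1) ^ i * (Z a (i + l) - Z a i) ∧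
      (-1) ^ i * (Z a (i + l) - Z a i) ≤ a i := by
  intro l
  induction l with
  | zero => intro i h; omega
  | succ l ih =>
    intro i _ h
    have h1 : ((-1 : ℤ) ^ i) * (-1) ^ i = 1 := by
      rw [← mul_pow]; simp
    rcases Nat.eq_zero_or_pos l with rfl | hl
    · rw [zero_add, Z_succ, add_sub_cancel_left, ← mul_assoc, h1, one_mul]
      have := hpos i (by omega)
      exact ⟨by exact_mod_cast this, le_refl _⟩
    · obtain ⟨h2, h3⟩ := ih (i + 1) hl (by omega)
      have e : (-1 : ℤ) ^ i * (Z a (i + (l + 1)) - Z a i) =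
          (a i : ℤ) - (-1) ^ (i + 1) * (Z a (i + 1 + l) - Z a (i + 1)) := by
        rw [show i + (l + 1) = i + 1 + l by ring, Z_succ a i, pow_succ]
        linear_combination ((a i : ℤ)) * h1
      have h4 := hdec i (by omega)
      rw [e]
      have h5 : ((a (i + 1) : ℕ) : ℤ) < a i := by exact_mod_cast h4
      constructor <;> linarith

theorem Z_ne {a : ℕ → ℕ} {m : ℕ} (hdec : ∀ i < m, a (i + 1) < a i) (hpos : ∀ i ≤ m, 0 < a i)
    {i j : ℕ} (hij : i < j) (hj : j ≤ m + 1) : Z a i ≠ Z a j := by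
  intro h
  have := (Z_bounds hdec hpos (j - i) i (by omega) (by omega)).1
  rw [show i + (j - i) = j by omega, h, sub_self, mul_zero] at this
  exact lt_irrefl _ this

theorem dec_inj {a : ℕ → ℕ} {m : ℕ} (hdec : ∀ i < m, a (i + 1) < a i) :
    ∀ i j, i < j → j ≤ m → a j < a i := by
  intro i j hij
  induction j with
  | zero => omega
  | succ j ih =>
    intro hj
    have := hdec j (by omega)
    rcases Nat.lt_or_ge i j with h | h
    · have := ih h (by omega)
      omega
    · obtain rfl : i = j := by omega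
      exact this

theorem int_cast_inj {n : ℕ} {x y : ℤ} (hx : 0 ≤ x) (hx' : x < n) (hy : 0 ≤ y) (hy' : y < n)
    (h : (x : ZMod n) = (y : ZMod n)) : x = y := by
  have := (ZMod.intCast_eq_intCast_iff x y n).mp h
  rw [Int.ModEq, Int.emod_eq_of_lt hx hx', Int.emod_eq_of_lt hy hy'] at this
  exact this

/-- Two decreasing alternating sequences with the same alternating sum. -/
theorem good_of_zigzag {p k : ℕ} [Fact p.Prime] (hp : p = 4 * k + 1) {S : Finset ℕ}
    (hS : S ⊆ Finset.Icc 1 (2 * k)) (hSk : S.card = k) {a b : ℕ → ℕ} {m1 m2 : ℕ}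
    (hm1 : m1 % 2 = 1) (hm2 : m2 % 2 = 1) (hm : m1 + m2 + 2 = 2 * k)
    (ha : ∀ i < m1, a (i + 1) < a i) (hb : ∀ i < m2, b (i + 1) < b i)
    (ha1 : ∀ i ≤ m1, 1 ≤ a i ∧ a i ≤ 2 * k) (hb1 : ∀ i ≤ m2, 1 ≤ b i ∧ b i ≤ 2 * k)
    (haS : ∀ i ≤ m1, a i ∈ S ↔ i % 2 = 0) (hbS : ∀ i ≤ m2, b i ∈ S ↔ i % 2 = 0)
    (hZ : Z a (m1 + 1) = Z b (m2 + 1)) :
    Good (fun d : ZMod p => cls d ∈ S) (2 * k) := by
  set yi : ℕ → ℤ := fun j => if j ≤ m1 then a 0 - Z a (j + 1) else
    if j < 2 * k then a 0 + b 0 - Z b (2 * k - j) else 0 with hyi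
  have hyi0 : yi 0 = 0 := by simp [hyi, Z_one]
  have hyik : yi (2 * k) = 0 := by
    have h1 : ¬ (2 * k ≤ m1) := by omega
    simp [hyi, h1]
  have h1sq : ∀ i : ℕ, ((-1 : ℤ)) ^ i = 1 ∨ ((-1 : ℤ)) ^ i = -1 := fun i => neg_one_pow_eq_or ℤ i
  -- the steps
  have st1 : ∀ j < m1, yi (j + 1) - yi j = (-1) ^ j * a (j + 1) := by
    intro j hj
    have h1 : j + 1 ≤ m1 := by omega
    have h2 : j ≤ m1 := by omega
    simp only [hyi, h1, h2, if_true]
    rw [Z_succ a (j + 1), pow_succ]
    ring
  have st2 : yi (m1 + 1) - yi m1 = b 0 := by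
    have h1 : ¬ (m1 + 1 ≤ m1) := by omega
    have h2 : m1 + 1 < 2 * k := by omega
    simp only [hyi, h1, h2, if_true, if_false, le_refl]
    rw [show 2 * k - (m1 + 1) = m2 + 1 by omega, hZ]
    ring
  have st3 : ∀ j, m1 < j → j < 2 * k - 1 → yi (j + 1) - yi j = (-1) ^ (2 * k - 1 - j) * b (2 * k - 1 - j) := by
    intro j hj hj'
    have h1 : ¬ (j + 1 ≤ m1) := by omega
    have h2 : ¬ (j ≤ m1) := by omega
    have h3 : j + 1 < 2 * k := by omega
    have h4 : j < 2 * k := by omega
    simp only [hyi, h1, h2, h3, h4, if_true, if_false]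
    rw [show 2 * k - j = (2 * k - 1 - j) + 1 by omega, Z_succ b (2 * k - 1 - j),
      show 2 * k - (j + 1) = 2 * k - 1 - j by omega]
    ring
  have st4 : yi (2 * k - 1 + 1) - yi (2 * k - 1) = - (a 0 : ℤ) := by
    rw [show 2 * k - 1 + 1 = 2 * k by omega, hyik]
    have h1 : ¬ (2 * k - 1 ≤ m1) := by omega
    have h2 : 2 * k - 1 < 2 * k := by omega
    simp only [hyi, h1, h2, if_true, if_false]
    rw [show 2 * k - (2 * k - 1) = 1 by omega, Z_one]
    ring
  have cstep : ∀ (x : ℤ) (t : ℕ), t ≤ 2 * k → (x = t ∨ x = -t) → cls ((x : ℤ) : ZMod p) = t := by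
    rintro x t ht (rfl | rfl)
    · rw [Int.cast_natCast]; exact cls_cast (by omega)
    · rw [Int.cast_neg, cls_neg, Int.cast_natCast]; exact cls_cast (by omega)
  set y : ℕ → ZMod p := fun j => ((yi j : ℤ) : ZMod p) with hydef
  have hysub : ∀ j, y (j + 1) - y j = ((yi (j + 1) - yi j : ℤ) : ZMod p) := by
    intro j; simp [hydef]
  have sgn : ∀ (i t : ℕ), ((-1 : ℤ)) ^ i * t = t ∨ ((-1 : ℤ)) ^ i * t = -t := by
    intro i t
    rcases h1sq i with h | h
    · left; rw [h, one_mul]
    · right; rw [h]; ring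
  have cl1 : ∀ j < m1, cls (y (j + 1) - y j) = a (j + 1) := by
    intro j hj
    rw [hysub, st1 j hj]
    exact cstep _ _ (ha1 _ (by omega)).2 (sgn _ _)
  have cl2 : cls (y (m1 + 1) - y m1) = b 0 := by
    rw [hysub, st2]
    exact cstep _ _ (hb1 _ (by omega)).2 (Or.inl rfl)
  have cl3 : ∀ j, m1 < j → j < 2 * k - 1 → cls (y (j + 1) - y j) = b (2 * k - 1 - j) := by
    intro j hj hj'
    rw [hysub, st3 j hj hj']
    exact cstep _ _ (hb1 _ (by omega)).2 (sgn _ _)
  have cl4 : cls (y (2 * k - 1 + 1) - y (2 * k - 1)) = a 0 := by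
    rw [hysub, st4]
    exact cstep _ _ (ha1 _ (by omega)).2 (Or.inr rfl)
  -- bounds
  have hapos : ∀ i ≤ m1, 0 < a i := fun i hi => (ha1 i hi).1
  have hbpos : ∀ i ≤ m2, 0 < b i := fun i hi => (hb1 i hi).1
  have bd1 : ∀ j ≤ m1, 0 ≤ yi j ∧ yi j < a 0 := by
    intro j hj
    have e : yi j = a 0 - Z a (j + 1) := by simp only [hyi, hj, if_true]
    rcases Nat.eq_zero_or_pos j with rfl | hj0
    · rw [hyi0]
      have := hapos 0 (by omega)
      exact ⟨le_refl _, by exact_mod_cast this⟩
    · obtain ⟨h1, h2⟩ := Z_bounds ha hapos j 1 hj0 (by omega)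
      rw [Z_one, pow_one, show 1 + j = j + 1 by ring] at h1 h2
      have h3 : ((a 1 : ℕ) : ℤ) < a 0 := by exact_mod_cast ha 0 (by omega)
      rw [e]
      constructor <;> linarith
  have bd2 : ∀ j, m1 < j → j < 2 * k → (a 0 : ℤ) ≤ yi j ∧ yi j < 4 * k + 1 := by
    intro j hj hj'
    have h1 : ¬ (j ≤ m1) := by omega
    have e : yi j = a 0 + b 0 - Z b (2 * k - j) := by simp only [hyi, h1, hj', if_true, if_false]
    have ha0 : ((a 0 : ℕ) : ℤ) ≤ 2 * k := by exact_mod_cast (ha1 0 (by omega)).2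
    rcases eq_or_ne (2 * k - j) 1 with h2 | h2
    · rw [e, h2, Z_one]
      constructor <;> linarith
    · obtain ⟨h3, h4⟩ := Z_bounds hb hbpos (2 * k - j - 1) 1 (by omega) (by omega)
      rw [show 1 + (2 * k - j - 1) = 2 * k - j by omega, Z_one, pow_one] at h3 h4
      have hb0 : ((b 1 : ℕ) : ℤ) ≤ 2 * k := by exact_mod_cast (hb1 1 (by omega)).2
      rw [e]
      constructor <;> linarith
  have bd : ∀ j < 2 * k, 0 ≤ yi j ∧ yi j < p := by
    intro j hj
    have ha0 : ((a 0 : ℕ) : ℤ) ≤ 2 * k := by exact_mod_cast (ha1 0 (by omega)).2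
    have hp' : (p : ℤ) = 4 * k + 1 := by exact_mod_cast hp
    rcases Nat.lt_or_ge m1 j with h | h
    · have := bd2 j h hj
      rw [hp']
      constructor
      · have : (0 : ℤ) ≤ (a 0 : ℕ) := Int.natCast_nonneg _
        linarith
      · exact this.2
    · have := bd1 j h
      rw [hp']
      constructor <;> linarith
  have hinjlt : ∀ i j, i < j → j < 2 * k → yi i ≠ yi j := by
    intro i j hij hj
    rcases Nat.lt_or_ge m1 j with h | h
    · rcases Nat.lt_or_ge m1 i with h' | h'
      · have h1 : ¬ (j ≤ m1) := by omega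
        have h2 : ¬ (i ≤ m1) := by omega
        have h3 : i < 2 * k := by omega
        simp only [hyi, h1, h2, h3, hj, if_true, if_false]
        intro h4
        have := Z_ne hb hbpos (i := 2 * k - j) (j := 2 * k - i) (by omega) (by omega)
        apply this
        linarith
      · have := (bd1 i h').2
        have := (bd2 j h hj).1
        intro h4; linarith
    · have h2 : i ≤ m1 := by omega
      simp only [hyi, h, h2, if_true]
      intro h4
      have := Z_ne ha hapos (i := i + 1) (j := j + 1) (by omega) (by omega)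
      apply this
      linarith
  refine good_of_cycle hp hS hSk (y := y) ?_ ?_ ?_ ?_
    (fun j => decide (m1 ≤ j ∧ j < 2 * k - 1)) ?_
  · simp only [hydef, hyik, hyi0]
  · intro i hi j hj h
    have h' := int_cast_inj (bd i hi).1 (bd i hi).2 (bd j hj).1 (bd j hj).2 h
    rcases lt_trichotomy i j with h1 | h1 | h1
    · exact absurd h' (hinjlt i j h1 hj)
    · exact h1
    · exact absurd h'.symm (hinjlt j i h1 hi)
  · intro j hj hj1
    rcases lt_trichotomy j m1 with h | h | h
    · rw [cl1 j h, haS _ (by omega)]; omega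
    · subst h; rw [cl2, hbS _ (by omega)]
    · rcases eq_or_ne j (2 * k - 1) with h' | h'
      · subst h'; rw [cl4, haS _ (by omega)]
      · rw [cl3 j h (by omega), hbS _ (by omega)]; omega
  · intro j hj hj1
    rcases lt_trichotomy j m1 with h | h | h
    · rw [cl1 j h, haS _ (by omega)]; omega
    · omega
    · rcases eq_or_ne j (2 * k - 1) with h' | h'
      · omega
      · rw [cl3 j h (by omega), hbS _ (by omega)]; omega
  · -- two steps of the same class and the same colour are equal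
    have ainj : ∀ i j, i ≤ m1 → j ≤ m1 → a i = a j → i = j := by
      intro i j hi hj h
      rcases lt_trichotomy i j with h1 | h1 | h1
      · have := dec_inj ha i j h1 hj; omega
      · exact h1
      · have := dec_inj ha j i h1 hi; omega
    have binj : ∀ i j, i ≤ m2 → j ≤ m2 → b i = b j → i = j := by
      intro i j hi hj h
      rcases lt_trichotomy i j with h1 | h1 | h1
      · have := dec_inj hb i j h1 hj; omega
      · exact h1
      · have := dec_inj hb j i h1 hi; omega
    have clA : ∀ j < 2 * k, ¬ (m1 ≤ j ∧ j < 2 * k - 1) →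
        cls (y (j + 1) - y j) = a (if j < m1 then j + 1 else 0) := by
      intro j hj h
      by_cases h1 : j < m1
      · rw [cl1 j h1, if_pos h1]
      · obtain rfl : j = 2 * k - 1 := by omega
        rw [cl4, if_neg h1]
    have clB : ∀ j < 2 * k, (m1 ≤ j ∧ j < 2 * k - 1) →
        cls (y (j + 1) - y j) = b (if j = m1 then 0 else 2 * k - 1 - j) := by
      intro j hj h
      by_cases h1 : j = m1
      · subst h1; rw [cl2, if_pos rfl]
      · rw [cl3 j (by omega) h.2, if_neg h1]
    intro i hi j hj h hc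
    by_cases h1 : m1 ≤ i ∧ i < 2 * k - 1
    · have h2 : m1 ≤ j ∧ j < 2 * k - 1 := by simpa [h1] using hc
      rw [clB i hi h1, clB j hj h2] at h
      have := binj _ _ (by split_ifs <;> omega) (by split_ifs <;> omega) h
      split_ifs at this <;> omega
    · have h2 : ¬ (m1 ≤ j ∧ j < 2 * k - 1) := by
        intro h3
        have e1 : decide (m1 ≤ i ∧ i < 2 * k - 1) = false := decide_eq_false h1
        have e2 : decide (m1 ≤ j ∧ j < 2 * k - 1) = true := decide_eq_true h3
        simp only [e1, e2] at hc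
        exact absurd hc (by decide)
      rw [clA i hi h1, clA j hj h2] at h
      have := ainj _ _ (by split_ifs <;> omega) (by split_ifs <;> omega) h
      split_ifs at this <;> omega

end Pool.Agent.Helper74.XP
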